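import Pool.Agent.Work.MP_3d4872_al.Weights

/-!
# MP_3d4872_al: pairs of matrices inside commuting nilpotent pairs
-/

set_option autoImplicit false
set_option linter.unusedSectionVars false

namespace Pool.Agent.Work.MP_3d4872_al

open Matrix
open scoped Kronecker

section Blocks

variable {m r : ℕ}

/-- The index set with `5 m + r` elements. -/
abbrev Idx (m r : ℕ) : Type := (Fin 5 × Fin m) ⊕ Fin r

/-- The block matrix `S ⊗ A`, with `r` zero rows and columns added. -/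
def pad (r : ℕ) {m : ℕ} (S : Matrix (Fin 5) (Fin 5) ℂ) (A : Matrix (Fin m) (Fin m) ℂ) :
    Matrix (Idx m r) (Idx m r) ℂ :=
  fromBlocks (S ⊗ₖ A) 0 0 0

lemma pad_mul (S T : Matrix (Fin 5) (Fin 5) ℂ) (A B : Matrix (Fin m) (Fin m) ℂ) :
    pad r S A * pad r T B = pad r (S * T) (A * B) := by
  simp [pad, fromBlocks_multiply, Matrix.mul_kronecker_mul]

lemma pad_transpose (S : Matrix (Fin 5) (Fin 5) ℂ) (A : Matrix (Fin m) (Fin m) ℂ) :
    (pad r S A)ᵀ = pad r Sᵀ Aᵀ := by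
  simp [pad, fromBlocks_transpose, Matrix.kroneckerMap_transpose]

lemma pad_add_left (S T : Matrix (Fin 5) (Fin 5) ℂ) (A : Matrix (Fin m) (Fin m) ℂ) :
    pad r (S + T) A = pad r S A + pad r T A := by
  simp [pad, fromBlocks_add, Matrix.add_kronecker]

lemma pad_add_right (S : Matrix (Fin 5) (Fin 5) ℂ) (A B : Matrix (Fin m) (Fin m) ℂ) :
    pad r S (A + B) = pad r S A + pad r S B := by
  simp [pad, fromBlocks_add, Matrix.kronecker_add]

lemma pad_smul_right (S : Matrix (Fin 5) (Fin 5) ℂ) (c : ℂ) (A : Matrix (Fin m) (Fin m) ℂ) :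
    pad r S (c • A) = c • pad r S A := by
  simp [pad, fromBlocks_smul, Matrix.kronecker_smul]

lemma pad_zero_left (A : Matrix (Fin m) (Fin m) ℂ) : pad r (0 : Matrix (Fin 5) (Fin 5) ℂ) A = 0 := by
  simp [pad]

/-- The elementary block matrix with `A` in position `(i, j)`. -/
def el (r : ℕ) {m : ℕ} (i j : Fin 5) (A : Matrix (Fin m) (Fin m) ℂ) :
    Matrix (Idx m r) (Idx m r) ℂ := pad r (Matrix.single i j 1) A

lemma el_mul_same (i j k : Fin 5) (A B : Matrix (Fin m) (Fin m) ℂ) :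
    el r i j A * el r j k B = el r i k (A * B) := by
  simp [el, pad_mul]

lemma el_mul_ne (i j k l : Fin 5) (h : j ≠ k) (A B : Matrix (Fin m) (Fin m) ℂ) :
    el r i j A * el r k l B = 0 := by
  rw [el, el, pad_mul, Matrix.single_mul_single_of_ne _ _ _ _ h, pad_zero_left]

lemma el_transpose (i j : Fin 5) (A : Matrix (Fin m) (Fin m) ℂ) :
    (el r i j A)ᵀ = el r j i Aᵀ := by
  rw [el, pad_transpose, Matrix.transpose_single, el]

/-- Component number `i` of a vector. -/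
def cp (r : ℕ) {m : ℕ} (i : Fin 5) : (Idx m r → ℂ) →ₗ[ℂ] (Fin m → ℂ) where
  toFun v := fun a => v (Sum.inl (i, a))
  map_add' _ _ := rfl
  map_smul' _ _ := rfl

/-- The vector with component number `i` equal to `u` and the others zero. -/
def ic (r : ℕ) {m : ℕ} (i : Fin 5) : (Fin m → ℂ) →ₗ[ℂ] (Idx m r → ℂ) where
  toFun u := Sum.elim (fun p => if p.1 = i then u p.2 else 0) 0
  map_add' u v := by
    ext (p | p)
    · simp only [Sum.elim_inl, Pi.add_apply]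
      split_ifs <;> simp
    · simp
  map_smul' c v := by
    ext (p | p)
    · simp only [Sum.elim_inl, Pi.smul_apply]
      split_ifs <;> simp
    · simp

lemma cp_ic_same (i : Fin 5) (u : Fin m → ℂ) : cp r i (ic r i u) = u := by
  ext a
  simp [cp, ic]

lemma cp_ic_ne (i j : Fin 5) (h : i ≠ j) (u : Fin m → ℂ) : cp r i (ic r j u) = 0 := by
  ext a
  simp [cp, ic, h]

lemma el_mulVec (i j : Fin 5) (A : Matrix (Fin m) (Fin m) ℂ) (v : Idx m r → ℂ) :
    el r i j A *ᵥ v = ic r i (A *ᵥ cp r j v) := by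
  ext (p | p)
  · simp only [el, pad, ic, cp, Matrix.mulVec, dotProduct, LinearMap.coe_mk, AddHom.coe_mk,
      Sum.elim_inl, Fintype.sum_sum_type, fromBlocks_apply₁₁, fromBlocks_apply₁₂,
      Matrix.kroneckerMap_apply, Matrix.zero_apply, zero_mul, Finset.sum_const_zero, add_zero]
    rw [Fintype.sum_prod_type, Finset.sum_eq_single j]
    · by_cases h : p.1 = i
      · subst h
        simp
      · rw [if_neg h]
        simp [Matrix.single_apply, Ne.symm h]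
    · intro k _ hk
      simp [Matrix.single_apply, Ne.symm hk]
    · simp
  · simp [el, pad, ic, Matrix.mulVec, dotProduct]

/-- The fixed nilpotent matrix. -/
def X0 (m r : ℕ) : Matrix (Idx m r) (Idx m r) ℂ := el r 1 0 1 + el r 3 1 1 + el r 4 2 1

/-- The nilpotent matrix attached to the pair `(A, B)`. -/
def Y0 (r : ℕ) {m : ℕ} (A B : Matrix (Fin m) (Fin m) ℂ) : Matrix (Idx m r) (Idx m r) ℂ :=
  el r 2 0 1 + el r 4 1 1 + el r 3 2 A + el r 4 2 B

lemma X0_mul_Y0 (A B : Matrix (Fin m) (Fin m) ℂ) : X0 m r * Y0 r A B = el r 4 0 1 := by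
  simp [X0, Y0, add_mul, mul_add, el_mul_same, el_mul_ne]

lemma Y0_mul_X0 (A B : Matrix (Fin m) (Fin m) ℂ) : Y0 r A B * X0 m r = el r 4 0 1 := by
  simp [X0, Y0, add_mul, mul_add, el_mul_same, el_mul_ne]

lemma X0_sq : X0 m r * X0 m r = el r 3 0 1 := by
  simp [X0, add_mul, mul_add, el_mul_same, el_mul_ne]

lemma Y0_sq (A B : Matrix (Fin m) (Fin m) ℂ) :
    Y0 r A B * Y0 r A B = el r 3 0 A + el r 4 0 B := by
  simp [Y0, add_mul, mul_add, el_mul_same, el_mul_ne]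

lemma X0_nilpotent : IsNilpotent (X0 m r) := by
  refine ⟨3, ?_⟩
  rw [pow_succ, pow_two, X0_sq]
  simp [X0, mul_add, el_mul_ne]

lemma Y0_nilpotent (A B : Matrix (Fin m) (Fin m) ℂ) : IsNilpotent (Y0 r A B) := by
  refine ⟨3, ?_⟩
  rw [pow_succ, pow_two, Y0_sq]
  simp [Y0, mul_add, add_mul, el_mul_ne]

/-- An intertwiner of the nilpotent pairs gives a simultaneous similarity. -/
theorem similarity_of_intertwiner {A B A' B' : Matrix (Fin m) (Fin m) ℂ}
    (g : (Idx m r → ℂ) →ₗ[ℂ] (Idx m r → ℂ)) (hg : Function.Injective g)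
    (h1 : ∀ v, g (X0 m r *ᵥ v) = X0 m r *ᵥ g v)
    (h2 : ∀ v, g (Y0 r A' B' *ᵥ v) = Y0 r A B *ᵥ g v) :
    ∃ p : (Fin m → ℂ) →ₗ[ℂ] (Fin m → ℂ), Function.Injective p ∧
      (∀ u, p (A' *ᵥ u) = A *ᵥ p u) ∧ ∀ u, p (B' *ᵥ u) = B *ᵥ p u := by
  have k1 : ∀ v, g ((X0 m r * X0 m r) *ᵥ v) = (X0 m r * X0 m r) *ᵥ g v := by
    intro v
    rw [← Matrix.mulVec_mulVec, h1, h1, Matrix.mulVec_mulVec]
  have k2 : ∀ v, g ((X0 m r * Y0 r A' B') *ᵥ v) = (X0 m r * Y0 r A B) *ᵥ g v := by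
    intro v
    rw [← Matrix.mulVec_mulVec, h1, h2, Matrix.mulVec_mulVec]
  have k3 : ∀ v, g ((Y0 r A' B' * Y0 r A' B') *ᵥ v) = (Y0 r A B * Y0 r A B) *ᵥ g v := by
    intro v
    rw [← Matrix.mulVec_mulVec, h2, h2, Matrix.mulVec_mulVec]
  simp only [X0_sq, X0_mul_Y0, Y0_sq, Matrix.add_mulVec, el_mulVec, Matrix.one_mulVec,
    map_add] at k1 k2 k3
  set p : (Fin m → ℂ) →ₗ[ℂ] (Fin m → ℂ) := cp r 0 ∘ₗ g ∘ₗ ic r 0 with hp
  have hpa : ∀ u, cp r 0 (g (ic r 0 u)) = p u := fun u => rfl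
  have j1 : ∀ u, g (ic r 3 u) = ic r 3 (p u) := by
    intro u
    have := k1 (ic r 0 u)
    rwa [cp_ic_same, hpa] at this
  have j2 : ∀ u, g (ic r 4 u) = ic r 4 (p u) := by
    intro u
    have := k2 (ic r 0 u)
    rwa [cp_ic_same, hpa] at this
  have j3 : ∀ u, ic r 3 (p (A' *ᵥ u)) + ic r 4 (p (B' *ᵥ u))
      = ic r 3 (A *ᵥ p u) + ic r 4 (B *ᵥ p u) := by
    intro u
    have := k3 (ic r 0 u)
    rwa [cp_ic_same, hpa, j1, j2] at this
  refine ⟨p, ?_, ?_, ?_⟩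
  · intro u v huv
    have h3 : g (ic r 3 u) = g (ic r 3 v) := by rw [j1, j1, huv]
    have h4 := congrArg (cp r 3) (hg h3)
    rwa [cp_ic_same, cp_ic_same] at h4
  · intro u
    have := congrArg (cp r 3) (j3 u)
    rwa [map_add, map_add, cp_ic_same, cp_ic_same, cp_ic_ne _ _ (by decide),
      cp_ic_ne _ _ (by decide), add_zero, add_zero] at this
  · intro u
    have := congrArg (cp r 4) (j3 u)
    rwa [map_add, map_add, cp_ic_same, cp_ic_same, cp_ic_ne _ _ (by decide),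
      cp_ic_ne _ _ (by decide), zero_add, zero_add] at this

/-- The last `r` entries. -/
def cr (m r : ℕ) : (Idx m r → ℂ) →ₗ[ℂ] (Fin r → ℂ) where
  toFun v := fun a => v (Sum.inr a)
  map_add' _ _ := rfl
  map_smul' _ _ := rfl

/-- The vector with the given last `r` entries and the others zero. -/
def ir (m r : ℕ) : (Fin r → ℂ) →ₗ[ℂ] (Idx m r → ℂ) where
  toFun w := Sum.elim 0 w
  map_add' u v := by
    ext (p | p) <;> simp
  map_smul' c v := by
    ext (p | p) <;> simp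

lemma cr_ir (w : Fin r → ℂ) : cr m r (ir m r w) = w := rfl

lemma cp_ir (i : Fin 5) (w : Fin r → ℂ) : cp r i (ir m r w) = 0 := rfl

lemma cr_ic (i : Fin 5) (u : Fin m → ℂ) : cr m r (ic r i u) = 0 := rfl

lemma ext_cp {v w : Idx m r → ℂ} (h : ∀ i, cp r i v = cp r i w) (h' : cr m r v = cr m r w) :
    v = w := by
  ext (p | p)
  · exact congrFun (h p.1) p.2
  · exact congrFun h' p

lemma X0_mulVec (v : Idx m r → ℂ) :
    X0 m r *ᵥ v = ic r 1 (cp r 0 v) + ic r 3 (cp r 1 v) + ic r 4 (cp r 2 v) := by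
  simp only [X0, Matrix.add_mulVec, el_mulVec, Matrix.one_mulVec]

lemma Y0_mulVec (A B : Matrix (Fin m) (Fin m) ℂ) (v : Idx m r → ℂ) :
    Y0 r A B *ᵥ v = ic r 2 (cp r 0 v) + ic r 4 (cp r 1 v) + ic r 3 (A *ᵥ cp r 2 v)
      + ic r 4 (B *ᵥ cp r 2 v) := by
  simp only [Y0, Matrix.add_mulVec, el_mulVec, Matrix.one_mulVec]

lemma X0T_mulVec (v : Idx m r → ℂ) :
    (X0 m r)ᵀ *ᵥ v = ic r 0 (cp r 1 v) + ic r 1 (cp r 3 v) + ic r 2 (cp r 4 v) := by
  simp only [X0, Matrix.transpose_add, el_transpose, Matrix.add_mulVec, el_mulVec,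
    Matrix.transpose_one, Matrix.one_mulVec]

lemma Y0T_mulVec (A B : Matrix (Fin m) (Fin m) ℂ) (v : Idx m r → ℂ) :
    (Y0 r A B)ᵀ *ᵥ v = ic r 0 (cp r 2 v) + ic r 1 (cp r 4 v) + ic r 2 (Aᵀ *ᵥ cp r 3 v)
      + ic r 2 (Bᵀ *ᵥ cp r 4 v) := by
  simp only [Y0, Matrix.transpose_add, el_transpose, Matrix.add_mulVec, el_mulVec,
    Matrix.transpose_one, Matrix.one_mulVec]

lemma cp_ic (i j : Fin 5) (u : Fin m → ℂ) : cp r i (ic r j u) = if i = j then u else 0 := by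
  split_ifs with h
  · subst h
    exact cp_ic_same _ _
  · exact cp_ic_ne _ _ h _

lemma common_kernel_transpose {A B : Matrix (Fin m) (Fin m) ℂ} {f : Idx m r → ℂ}
    (h1 : (X0 m r)ᵀ *ᵥ f = 0) (h2 : (Y0 r A B)ᵀ *ᵥ f = 0) :
    cp r 1 f = 0 ∧ cp r 2 f = 0 ∧ cp r 3 f = 0 ∧ cp r 4 f = 0 := by
  rw [X0T_mulVec] at h1
  rw [Y0T_mulVec] at h2
  have a0 := congrArg (cp r 0) h1
  have a1 := congrArg (cp r 1) h1
  have a2 := congrArg (cp r 2) h1
  have b0 := congrArg (cp r 0) h2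
  simp only [map_add, cp_ic, map_zero] at a0 a1 a2 b0
  simp at a0 a1 a2 b0
  exact ⟨a0, b0, a1, a2⟩

/-- There is no intertwiner from the pair to the transposed pair. -/
theorem no_transpose {A B A' B' : Matrix (Fin m) (Fin m) ℂ} (hm : m ≠ 0)
    (g : (Idx m r → ℂ) →ₗ[ℂ] (Idx m r → ℂ)) (hg : Function.Injective g)
    (h1 : ∀ v, g (X0 m r *ᵥ v) = (X0 m r)ᵀ *ᵥ g v)
    (h2 : ∀ v, g (Y0 r A' B' *ᵥ v) = (Y0 r A B)ᵀ *ᵥ g v) : False := by
  set S : (Fin m → ℂ) × (Fin m → ℂ) × (Fin r → ℂ) →ₗ[ℂ] (Idx m r → ℂ) :=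
    (ic r 3).coprod ((ic r 4).coprod (ir m r)) with hS
  have hSa : ∀ z, S z = ic r 3 z.1 + (ic r 4 z.2.1 + ir m r z.2.2) := fun z => rfl
  have hSinj : Function.Injective S := by
    intro z w hzw
    rw [hSa, hSa] at hzw
    have a3 := congrArg (cp r 3) hzw
    have a4 := congrArg (cp r 4) hzw
    have ar := congrArg (cr m r) hzw
    simp only [map_add, cp_ic, cp_ir, cr_ic, cr_ir] at a3 a4 ar
    simp at a3 a4 ar
    exact Prod.ext a3 (Prod.ext a4 ar)
  have hker : ∀ z, cp r 1 (g (S z)) = 0 ∧ cp r 2 (g (S z)) = 0 ∧ cp r 3 (g (S z)) = 0 ∧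
      cp r 4 (g (S z)) = 0 := by
    intro z
    apply common_kernel_transpose (A := A) (B := B)
    · rw [← h1, hSa, X0_mulVec]
      simp only [map_add, cp_ic, cp_ir]
      simp
    · rw [← h2, hSa, Y0_mulVec]
      simp only [map_add, cp_ic, cp_ir]
      simp
  set T : (Fin m → ℂ) × (Fin m → ℂ) × (Fin r → ℂ) →ₗ[ℂ] (Fin m → ℂ) × (Fin r → ℂ) :=
    ((cp r 0).prod (cr m r)) ∘ₗ g ∘ₗ S with hT
  have hTinj : Function.Injective T := by
    intro z w hzw
    apply hSinj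
    apply hg
    have hz := hker z
    have hw := hker w
    have e0 : cp r 0 (g (S z)) = cp r 0 (g (S w)) := congrArg Prod.fst hzw
    have er : cr m r (g (S z)) = cr m r (g (S w)) := congrArg Prod.snd hzw
    refine ext_cp (fun i => ?_) er
    fin_cases i
    · exact e0
    · exact hz.1.trans hw.1.symm
    · exact hz.2.1.trans hw.2.1.symm
    · exact hz.2.2.1.trans hw.2.2.1.symm
    · exact hz.2.2.2.trans hw.2.2.2.symm
  have := LinearMap.finrank_le_finrank_of_injective hTinj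
  simp only [Module.finrank_prod, Module.finrank_fintype_fun_eq_card, Fintype.card_fin] at this
  omega

end Blocks

end Pool.Agent.Work.MP_3d4872_al
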