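import Pool.Agent.Work.MP_3d4872_al.Frame

/-!
# MP_3d4872_al: a frame gives the affine family of brackets
-/

set_option autoImplicit false
set_option linter.unusedSectionVars false

namespace Pool.Agent.Work.MP_3d4872_al

open Matrix LieAlgebra

section

variable {L : Type*} [LieRing L] [LieAlgebra ℂ L] {m r : ℕ}

/-- The affine family of elements `y` attached to a frame. -/
noncomputable def Frame.family (F : Frame L (Idx m r)) :
    (Matrix (Fin m) (Fin m) ℂ × Matrix (Fin m) (Fin m) ℂ) →ᵃ[ℂ] L where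
  toFun p := F.ey (Y0 r p.1 p.2)
  linear :=
    { toFun := fun p => F.ey (el r 3 2 p.1 + el r 4 2 p.2)
      map_add' := by
        intro p q
        rw [← map_add]
        congr 1
        simp only [Prod.fst_add, Prod.snd_add, el, pad_add_right]
        abel
      map_smul' := by
        intro c p
        rw [RingHom.id_apply, ← map_smul]
        congr 1
        simp only [Prod.smul_fst, Prod.smul_snd, el, pad_smul_right, smul_add] }
  map_vadd' := by
    intro p v
    change F.ey (Y0 r (v + p).1 (v + p).2)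
      = F.ey (el r 3 2 v.1 + el r 4 2 v.2) + F.ey (Y0 r p.1 p.2)
    rw [← map_add]
    congr 1
    simp only [Y0, Prod.fst_add, Prod.snd_add, el, pad_add_right]
    abel

lemma commute_X0_Y0 (A B : Matrix (Fin m) (Fin m) ℂ) :
    X0 m r * Y0 r A B = Y0 r A B * X0 m r := by rw [X0_mul_Y0, Y0_mul_X0]

lemma Frame.family_compatible (F : Frame L (Idx m r))
    (p : Matrix (Fin m) (Fin m) ℂ × Matrix (Fin m) (Fin m) ℂ) :
    Compatible (pairBracket (F.bx (X0 m r)) (F.family p)) :=
  compatible_pairBracket (F.comm _ _ (commute_X0_Y0 _ _))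
    (F.kill_xy _ _ X0_nilpotent (Y0_nilpotent _ _) (commute_X0_Y0 _ _))

lemma Frame.bx_ne (F : Frame L (Idx m r)) : F.bx (X0 m r) ≠ 0 := by
  intro h
  apply F.kxx_ne
  rw [← F.kill_xx (X0 m r) X0_nilpotent, h]
  simp

lemma Frame.ey_ne (F : Frame L (Idx m r)) (hm : m ≠ 0) (A B : Matrix (Fin m) (Fin m) ℂ) :
    F.ey (Y0 r A B) ≠ 0 := by
  intro h
  obtain ⟨k, rfl⟩ := Nat.exists_eq_succ_of_ne_zero hm
  set u : Fin (k + 1) → ℂ := fun _ => 1
  have h1 := F.ey_col (Y0 r A B) (Y0_nilpotent A B) (ic r 0 u)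
  rw [h, zero_lie] at h1
  have h2 := congrArg F.colp h1
  rw [map_zero, F.colp_col, Y0_mulVec] at h2
  have h3 := congrArg (cp r 2) h2
  simp only [map_add, cp_ic, map_zero] at h3
  simp at h3
  exact one_ne_zero (congrFun h3 0).symm

/-- Block diagonal matrix with five blocks `P` and an identity block. -/
def dg (m r : ℕ) (P : Matrix (Fin m) (Fin m) ℂ) : Matrix (Idx m r) (Idx m r) ℂ :=
  fromBlocks (Matrix.kroneckerMap (fun a b => a * b) (1 : Matrix (Fin 5) (Fin 5) ℂ) P) 0 0 1

lemma dg_mul (P Q : Matrix (Fin m) (Fin m) ℂ) : dg m r P * dg m r Q = dg m r (P * Q) := by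
  rw [dg, dg, dg, fromBlocks_multiply]
  simp only [Matrix.mul_zero, Matrix.zero_mul, add_zero, zero_add, mul_one]
  rw [← Matrix.mul_kronecker_mul, one_mul]

lemma dg_one : dg m r 1 = 1 := by
  rw [dg, Matrix.one_kronecker_one, Matrix.fromBlocks_one]

lemma dg_el (P A : Matrix (Fin m) (Fin m) ℂ) (i j : Fin 5) :
    dg m r P * el r i j A = el r i j (P * A) := by
  rw [dg, el, el, pad, pad, fromBlocks_multiply]
  simp only [Matrix.mul_zero, Matrix.zero_mul, add_zero]
  rw [← Matrix.mul_kronecker_mul, one_mul]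

lemma el_dg (P A : Matrix (Fin m) (Fin m) ℂ) (i j : Fin 5) :
    el r i j A * dg m r P = el r i j (A * P) := by
  rw [dg, el, el, pad, pad, fromBlocks_multiply]
  simp only [Matrix.mul_zero, Matrix.zero_mul, add_zero]
  rw [← Matrix.mul_kronecker_mul, mul_one]

/-- A Lie algebra with nondegenerate Killing form and with a frame contains the pairs of matrices. -/
theorem Frame.containsPairs [FiniteDimensional ℂ L] [LieAlgebra.IsKilling ℂ L] (hm : m ≠ 0)
    (F : Frame L (Idx m r)) : ContainsPairs m L := by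
  refine ⟨F.bx (X0 m r), F.family, F.family_compatible, fun p q => ?_⟩
  have hiff := equivalent_iff (x := F.bx (X0 m r)) (y := F.ey (Y0 r p.1 p.2))
    (x' := F.bx (X0 m r)) (y' := F.ey (Y0 r q.1 q.2)) (F.comm _ _ (commute_X0_Y0 _ _))
    (F.comm _ _ (commute_X0_Y0 _ _)) F.bx_ne (F.ey_ne hm _ _)
  refine Iff.trans hiff ?_
  constructor
  · rintro ⟨φ, s, -, h1, h2⟩
    rcases F.recover X0_nilpotent X0_nilpotent (Y0_nilpotent p.1 p.2) (Y0_nilpotent q.1 q.2) s φ
      h1 h2 with ⟨g, hg, g1, g2⟩ | ⟨g, hg, g1, g2⟩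
    · obtain ⟨f, hf, f1, f2⟩ := similarity_of_intertwiner g hg g1 g2
      have hu : IsUnit (LinearMap.toMatrix' f) := by
        rw [← Matrix.mulVec_injective_iff_isUnit]
        intro u v huv
        apply hf
        simpa [LinearMap.toMatrix'_mulVec] using huv
      obtain ⟨P, hP⟩ := hu
      have e1 : P.val * q.1 = p.1 * P.val := by
        rw [hP]
        apply Matrix.toLin'.injective
        apply LinearMap.ext
        intro u
        rw [Matrix.toLin'_apply, Matrix.toLin'_apply, ← Matrix.mulVec_mulVec,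
          ← Matrix.mulVec_mulVec, LinearMap.toMatrix'_mulVec, LinearMap.toMatrix'_mulVec]
        exact f1 u
      have e2 : P.val * q.2 = p.2 * P.val := by
        rw [hP]
        apply Matrix.toLin'.injective
        apply LinearMap.ext
        intro u
        rw [Matrix.toLin'_apply, Matrix.toLin'_apply, ← Matrix.mulVec_mulVec,
          ← Matrix.mulVec_mulVec, LinearMap.toMatrix'_mulVec, LinearMap.toMatrix'_mulVec]
        exact f2 u
      have hPP : P⁻¹.val * P.val = 1 := by
        rw [← Units.val_mul, inv_mul_cancel, Units.val_one]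
      refine ⟨P⁻¹, ?_, ?_⟩
      · rw [inv_inv, mul_assoc, ← e1, ← mul_assoc, hPP, one_mul]
      · rw [inv_inv, mul_assoc, ← e2, ← mul_assoc, hPP, one_mul]
    · exact (no_transpose hm g hg g1 g2).elim
  · rintro ⟨P, h1, h2⟩
    have hPP : P⁻¹.val * P.val = 1 := by
      rw [← Units.val_mul, inv_mul_cancel, Units.val_one]
    have hPP' : P.val * P⁻¹.val = 1 := by
      rw [← Units.val_mul, mul_inv_cancel, Units.val_one]
    obtain ⟨ψ, k1, k2⟩ := F.conj (dg m r P⁻¹.val) (dg m r P.val)
      (by rw [dg_mul, hPP, dg_one]) (by rw [dg_mul, hPP', dg_one])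
    refine ⟨ψ, 1, one_ne_zero, ?_, ?_⟩
    · rw [k1, one_smul]
      congr 1
      simp only [X0, mul_add, add_mul, dg_el, el_dg, mul_one, hPP]
    · rw [k2, inv_one, one_smul]
      congr 1
      simp only [Y0, mul_add, add_mul, dg_el, el_dg, mul_one, hPP, h1, h2]
      have e : ∀ M : Matrix (Fin m) (Fin m) ℂ,
          P⁻¹.val * (P.val * M * P⁻¹.val) * P.val = M := by
        intro M
        calc P⁻¹.val * (P.val * M * P⁻¹.val) * P.val
            = (P⁻¹.val * P.val) * M * (P⁻¹.val * P.val) := by noncomm_ring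
          _ = M := by rw [hPP, one_mul, mul_one]
      rw [e, e]

/-- The case of matrices of size zero. -/
lemma containsPairs_zero : ContainsPairs 0 L := by
  refine ⟨0, AffineMap.const ℂ _ 0, fun p => ?_, fun p q => ?_⟩
  · exact compatible_pairBracket (by simp) (by simp)
  · refine ⟨fun _ => ⟨1, Subsingleton.elim _ _, Subsingleton.elim _ _⟩, fun _ => ?_⟩
    exact ⟨LieEquiv.refl, fun X Y => rfl⟩

end

end Pool.Agent.Work.MP_3d4872_al
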