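import Mathlib

/-!
# MP_3d4872_al: Lie brackets compatible with a given Lie bracket

Definitions used in the statement of the result.
-/

set_option autoImplicit false

namespace Pool.Agent.Work.MP_3d4872_al

/-- `β` is a Lie bracket on the vector space `L`: alternating, with the Jacobi identity. -/
def IsLieBr {L : Type*} [AddCommGroup L] [Module ℂ L] (β : L →ₗ[ℂ] L →ₗ[ℂ] L) : Prop :=
  (∀ X, β X X = 0) ∧ ∀ X Y Z, β X (β Y Z) + β Y (β Z X) + β Z (β X Y) = 0

/-- The bracket `[X, Y]` of the Lie algebra `L`, as a bilinear map. -/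
noncomputable def ownBracket (L : Type*) [LieRing L] [LieAlgebra ℂ L] : L →ₗ[ℂ] L →ₗ[ℂ] L :=
  (LieAlgebra.ad ℂ L : L →ₗ[ℂ] Module.End ℂ L)

/-- `β` is a Lie bracket compatible with the bracket of `L`: `[X, Y] + c β(X, Y)` is a Lie bracket
for every complex number `c`. -/
def Compatible {L : Type*} [LieRing L] [LieAlgebra ℂ L] (β : L →ₗ[ℂ] L →ₗ[ℂ] L) : Prop :=
  IsLieBr β ∧ ∀ c : ℂ, IsLieBr (ownBracket L + c • β)

/-- Equivalence of two bilinear maps: `β'(X, Y) = φ⁻¹ β(φ X, φ Y)` for an automorphism `φ` of the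
Lie algebra `L`. -/
def Equivalent {L : Type*} [LieRing L] [LieAlgebra ℂ L] (β β' : L →ₗ[ℂ] L →ₗ[ℂ] L) : Prop :=
  ∃ φ : L ≃ₗ⁅ℂ⁆ L, ∀ X Y, β' X Y = φ.symm (β (φ X) (φ Y))

/-- The bilinear map `[R X, Y] + [X, R Y] - R [X, Y]` attached to a linear operator `R`. -/
noncomputable def opBracket {L : Type*} [LieRing L] [LieAlgebra ℂ L] (R : L →ₗ[ℂ] L) :
    L →ₗ[ℂ] L →ₗ[ℂ] L :=
  (ownBracket L).comp R + (ownBracket L).compl₂ R - (ownBracket L).compr₂ R

/-- The operator `R X = κ(y, X) x` of rank at most one, with `κ` the Killing form. -/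
noncomputable def rankOne {L : Type*} [LieRing L] [LieAlgebra ℂ L] (x y : L) : L →ₗ[ℂ] L :=
  (killingForm ℂ L y).smulRight x

/-- The bilinear map attached to the operator `R X = κ(y, X) x`, that is
`κ(y, X) [x, Y] - κ(y, Y) [x, X] - κ(y, [X, Y]) x`. -/
noncomputable def pairBracket {L : Type*} [LieRing L] [LieAlgebra ℂ L] (x y : L) :
    L →ₗ[ℂ] L →ₗ[ℂ] L := opBracket (rankOne x y)

/-- Simultaneous similarity of two pairs of complex `m × m` matrices:
`(A', B') = (P A P⁻¹, P B P⁻¹)`. -/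
def SimSim {m : ℕ} (p q : Matrix (Fin m) (Fin m) ℂ × Matrix (Fin m) (Fin m) ℂ) : Prop :=
  ∃ P : GL (Fin m) ℂ, q.1 = P.val * p.1 * P⁻¹.val ∧ q.2 = P.val * p.2 * P⁻¹.val

/-- There are an element `x` of `L` and an affine map `y` from the pairs `p = (A, B)` of complex
`m × m` matrices to `L` such that all the brackets of the pairs `(x, y(p))` are Lie brackets
compatible with the bracket of `L`, and two of them are equivalent if and only if the pairs of
matrices are simultaneously similar. -/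
def ContainsPairs (m : ℕ) (L : Type*) [LieRing L] [LieAlgebra ℂ L] : Prop :=
  ∃ (x : L) (y : (Matrix (Fin m) (Fin m) ℂ × Matrix (Fin m) (Fin m) ℂ) →ᵃ[ℂ] L),
    (∀ p, Compatible (pairBracket x (y p))) ∧
    ∀ p q, Equivalent (pairBracket x (y p)) (pairBracket x (y q)) ↔ SimSim p q

end Pool.Agent.Work.MP_3d4872_al
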