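import Pool.Agent.Work.MP_3d4872_al.Blocks

/-!
# MP_3d4872_al: conjugation and renaming on `sl n`
-/

set_option autoImplicit false
set_option linter.unusedSectionVars false

namespace Pool.Agent.Work.MP_3d4872_al

open Matrix LieAlgebra LieAlgebra.SpecialLinear

attribute [local instance 100] LieRing.ofAssociativeRing

section Conj

variable {n : Type*} [Fintype n] [DecidableEq n]

/-- Conjugation by an invertible matrix, on `sl n`. -/
def conjSl (G H : Matrix n n ℂ) (hGH : G * H = 1) (hHG : H * G = 1) :
    sl n ℂ ≃ₗ⁅ℂ⁆ sl n ℂ where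
  toFun w := ⟨G * w.val * H, by
    change Matrix.trace _ = 0
    rw [Matrix.trace_mul_comm, ← mul_assoc, hHG, one_mul]
    exact w.2⟩
  map_add' v w := by
    apply Subtype.ext
    change G * (v.val + w.val) * H = G * v.val * H + G * w.val * H
    rw [mul_add, add_mul]
  map_smul' c w := by
    apply Subtype.ext
    change G * (c • w.val) * H = c • (G * w.val * H)
    simp
  map_lie' := by
    intro v w
    apply Subtype.ext
    change G * (v.val * w.val - w.val * v.val) * H
      = (G * v.val * H) * (G * w.val * H) - (G * w.val * H) * (G * v.val * H)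
    have e : ∀ a b : Matrix n n ℂ, (G * a * H) * (G * b * H) = G * (a * b) * H := by
      intro a b
      calc (G * a * H) * (G * b * H) = G * a * (H * G) * b * H := by noncomm_ring
        _ = G * (a * b) * H := by rw [hHG]; noncomm_ring
    rw [e, e]
    noncomm_ring
  invFun w := ⟨H * w.val * G, by
    change Matrix.trace _ = 0
    rw [Matrix.trace_mul_comm, ← mul_assoc, hGH, one_mul]
    exact w.2⟩
  left_inv w := by
    apply Subtype.ext
    change H * (G * w.val * H) * G = w.val
    calc H * (G * w.val * H) * G = (H * G) * w.val * (H * G) := by noncomm_ring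
      _ = w.val := by rw [hHG, one_mul, mul_one]
  right_inv w := by
    apply Subtype.ext
    change G * (H * w.val * G) * H = w.val
    calc G * (H * w.val * G) * H = (G * H) * w.val * (G * H) := by noncomm_ring
      _ = w.val := by rw [hGH, one_mul, mul_one]

lemma conjSl_apply (G H : Matrix n n ℂ) (hGH : G * H = 1) (hHG : H * G = 1) (w : sl n ℂ) :
    (conjSl G H hGH hHG w).val = G * w.val * H := rfl

/-- Renaming of the index set, on `sl n`. -/
def reindexSl {n' : Type*} [Fintype n'] [DecidableEq n'] (e : n ≃ n') :
    sl n ℂ ≃ₗ⁅ℂ⁆ sl n' ℂ where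
  toFun w := ⟨w.val.submatrix e.symm e.symm, by
    change Matrix.trace _ = 0
    have h : Matrix.trace w.val = 0 := w.2
    rw [← h, Matrix.trace, Matrix.trace]
    exact Equiv.sum_comp e.symm (fun i => w.val i i)⟩
  map_add' v w := rfl
  map_smul' c w := rfl
  map_lie' := by
    intro v w
    apply Subtype.ext
    change (v.val * w.val - w.val * v.val).submatrix e.symm e.symm
      = v.val.submatrix e.symm e.symm * w.val.submatrix e.symm e.symm
        - w.val.submatrix e.symm e.symm * v.val.submatrix e.symm e.symm
    rw [Matrix.submatrix_mul_equiv, Matrix.submatrix_mul_equiv, Matrix.submatrix_sub]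
    rfl
  invFun w := ⟨w.val.submatrix e e, by
    change Matrix.trace _ = 0
    have h : Matrix.trace w.val = 0 := w.2
    rw [← h, Matrix.trace, Matrix.trace]
    exact Equiv.sum_comp e (fun i => w.val i i)⟩
  left_inv w := by
    apply Subtype.ext
    ext i j
    simp
  right_inv w := by
    apply Subtype.ext
    ext i j
    simp

end Conj

section Emb

variable {ι : Type*} [Fintype ι] [DecidableEq ι]

lemma bordered_mul (M N : Matrix ι ι ℂ) (d e : ℂ) :
    bordered M 0 0 d * bordered N 0 0 e = bordered (M * N) 0 0 (d * e) := by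
  ext (i | i) (j | j) <;> simp [Matrix.mul_apply, Fintype.sum_sum_type]

lemma bordered_one : (bordered 1 0 0 1 : Matrix (ι ⊕ Unit) (ι ⊕ Unit) ℂ) = 1 := by
  ext (i | i) (j | j) <;> simp [Matrix.one_apply]

lemma lie_emb (M N : Matrix ι ι ℂ) : ⁅emb M, emb N⁆ = emb (M * N - N * M) := by
  apply Subtype.ext
  change bordered M 0 0 _ * bordered N 0 0 _ - bordered N 0 0 _ * bordered M 0 0 _
    = bordered _ 0 0 _
  rw [bordered_mul, bordered_mul]
  ext (i | i) (j | j)
  · simp
  · simp
  · simp
  · simp only [Matrix.sub_apply, bordered_22, Matrix.trace_sub, Matrix.trace_mul_comm N M]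
    ring

lemma trace_emb_mul (M N : Matrix ι ι ℂ) :
    ((emb M).val * (emb N).val).trace = (M * N).trace + M.trace * N.trace := by
  rw [val_emb, val_emb, bordered_mul, trace_bordered]
  ring

lemma conj_emb (Q Q' M : Matrix ι ι ℂ) (h : Q * Q' = 1) (h' : Q' * Q = 1) (hG hH) :
    conjSl (bordered Q 0 0 1) (bordered Q' 0 0 1) hG hH (emb M) = emb (Q * M * Q') := by
  apply Subtype.ext
  rw [conjSl_apply, val_emb, val_emb, bordered_mul, bordered_mul, one_mul, mul_one,
    Matrix.trace_mul_comm (Q * M), ← mul_assoc, h', one_mul]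

end Emb

end Pool.Agent.Work.MP_3d4872_al
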