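import Pool.Agent.Work.MP_3d4872_al.TypeBCD

/-!
# MP_3d4872_al: semisimple Lie algebras with a classical ideal
-/

set_option autoImplicit false
set_option linter.unusedSectionVars false

namespace Pool.Agent.Work.MP_3d4872_al

open Matrix LieAlgebra LieAlgebra.SpecialLinear LieAlgebra.Orthogonal LieAlgebra.Symplectic

attribute [local instance 100] LieRing.ofAssociativeRing

section Decomposition

variable {L : Type*} [LieRing L] [LieAlgebra ℂ L]

/-- Two complementary ideals decompose a Lie algebra. -/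
noncomputable def prodOfCompl (I J : LieIdeal ℂ L) (h : IsCompl I J) : (I × J) ≃ₗ⁅ℂ⁆ L :=
  { Submodule.prodEquivOfIsCompl I.toSubmodule J.toSubmodule
      (LieSubmodule.isCompl_toSubmodule.2 h) with
    map_lie' := by
      intro a b
      have hz : ∀ (u : I) (v : J), ⁅(u : L), (v : L)⁆ = 0 := by
        intro u v
        have h1 : ⁅(u : L), (v : L)⁆ ∈ I ⊓ J :=
          ⟨lie_mem_left ℂ L I _ _ u.2, lie_mem_right ℂ L J _ _ v.2⟩
        rw [h.inf_eq_bot] at h1
        simpa using h1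
      have hz' : ∀ (u : I) (v : J), ⁅(v : L), (u : L)⁆ = 0 := by
        intro u v
        rw [← lie_skew, hz, neg_zero]
      change ((⁅a.1, b.1⁆ : I) : L) + ((⁅a.2, b.2⁆ : J) : L)
        = ⁅(a.1 : L) + (a.2 : L), (b.1 : L) + (b.2 : L)⁆
      rw [add_lie, lie_add, lie_add, hz, hz', add_zero, zero_add]
      rfl }

/-- In a semisimple Lie algebra an ideal is a direct factor. -/
theorem exists_prod [LieAlgebra.IsSemisimple ℂ L] (I : LieIdeal ℂ L) :
    ∃ J : LieIdeal ℂ L, Nonempty ((I × J) ≃ₗ⁅ℂ⁆ L) := by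
  obtain ⟨J, hJ⟩ := exists_isCompl I
  exact ⟨J, ⟨prodOfCompl I J hJ⟩⟩

/-- A frame of an ideal of a semisimple Lie algebra gives the family of brackets. -/
theorem containsPairs_of_ideal [FiniteDimensional ℂ L] [LieAlgebra.IsSemisimple ℂ L] {m r : ℕ}
    (hm : m ≠ 0) (I : LieIdeal ℂ L) (F : Frame I (Idx m r)) : ContainsPairs m L := by
  obtain ⟨J, ⟨e⟩⟩ := exists_prod I
  exact ((F.prod J).transport e).containsPairs hm

end Decomposition

section Classical

/-- Renaming of the index set, on the Lie algebra of a form. -/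
noncomputable def reindexSkew {n n' : Type} [Fintype n] [DecidableEq n] [Fintype n']
    [DecidableEq n'] (J : Matrix n n ℂ) (J' : Matrix n' n' ℂ) (e : n ≃ n')
    (h : J.submatrix e.symm e.symm = J') :
    skewAdjointMatricesLieSubalgebra J ≃ₗ⁅ℂ⁆ skewAdjointMatricesLieSubalgebra J' :=
  (skewAdjointMatricesLieSubalgebraEquivTranspose J (Matrix.reindexAlgEquiv ℂ ℂ e)
    (Matrix.transpose_reindex _ _)).trans (LieEquiv.ofEq _ _ (by
      have : (Matrix.reindexAlgEquiv ℂ ℂ e) J = J' := h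
      rw [this]))

variable {l : Type} [Fintype l] [DecidableEq l]

lemma bigJ_eq_JB : bigJ l ((2 : ℂ) • (1 : Matrix Unit Unit ℂ)) 1 = JB l ℂ := by
  rw [bigJ, JB, JD, one_smul]

lemma bigJ_eq_JD : (bigJ l (0 : Matrix Empty Empty ℂ) 1).submatrix
    (Equiv.emptySum Empty (l ⊕ l)).symm (Equiv.emptySum Empty (l ⊕ l)).symm = JD l ℂ := by
  ext i j
  simp [bigJ, JD]

lemma bigJ_eq_J : (bigJ l (0 : Matrix Empty Empty ℂ) (-1)).submatrix
    (Equiv.emptySum Empty (l ⊕ l)).symm (Equiv.emptySum Empty (l ⊕ l)).symm = Matrix.J l ℂ := by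
  ext i j
  simp [bigJ, Matrix.J]

variable {ι : Type} [Fintype ι] [DecidableEq ι] [Nonempty ι]

/-- The frame of type B. -/
noncomputable def frameB (ι : Type) [Fintype ι] [DecidableEq ι] [Nonempty ι] :
    Frame (typeB (ι ⊕ Unit) ℂ) ι :=
  (frameBCD ι (G := (2 : ℂ) • (1 : Matrix Unit Unit ℂ)) (G' := (2 : ℂ)⁻¹ • (1 : Matrix Unit Unit ℂ))
    (ε := 1) (by simp [smul_smul]) (by simp [smul_smul]) (by simp) (by norm_num)).transport
    (reindexSkew _ _ (Equiv.refl _) bigJ_eq_JB)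

/-- The frame of type D. -/
noncomputable def frameD (ι : Type) [Fintype ι] [DecidableEq ι] [Nonempty ι] :
    Frame (typeD (ι ⊕ Unit) ℂ) ι :=
  (frameBCD ι (G := (0 : Matrix Empty Empty ℂ)) (G' := (0 : Matrix Empty Empty ℂ))
    (ε := 1) (Subsingleton.elim _ _) (Subsingleton.elim _ _) (Subsingleton.elim _ _)
    (by norm_num)).transport (reindexSkew _ _ _ bigJ_eq_JD)

/-- The frame of type C. -/
noncomputable def frameC (ι : Type) [Fintype ι] [DecidableEq ι] [Nonempty ι] :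
    Frame (sp (ι ⊕ Unit) ℂ) ι :=
  (frameBCD ι (G := (0 : Matrix Empty Empty ℂ)) (G' := (0 : Matrix Empty Empty ℂ))
    (ε := -1) (Subsingleton.elim _ _) (Subsingleton.elim _ _) (Subsingleton.elim _ _)
    (by norm_num)).transport (reindexSkew _ _ _ bigJ_eq_J)

/-- The isomorphism from type D to the Lie algebra of skew-symmetric matrices. -/
noncomputable def dToSo (l : Type) [Fintype l] [DecidableEq l] {N : ℕ}
    (h : Fintype.card (l ⊕ l) = N) : typeD l ℂ ≃ₗ⁅ℂ⁆ so (Fin N) ℂ :=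
  letI : Invertible (2 : ℂ) := invertibleOfNonzero two_ne_zero
  ((typeDEquivSo' l ℂ).trans (soIndefiniteEquiv l l ℂ Complex.I_mul_I)).trans
    (reindexSkew 1 1 (Fintype.equivFinOfCardEq h) (Matrix.submatrix_one_equiv _))

/-- The isomorphism from type B to the Lie algebra of skew-symmetric matrices. -/
noncomputable def bToSo (l : Type) [Fintype l] [DecidableEq l] {N : ℕ}
    (h : Fintype.card ((Unit ⊕ l) ⊕ l) = N) : typeB l ℂ ≃ₗ⁅ℂ⁆ so (Fin N) ℂ :=
  letI : Invertible (2 : ℂ) := invertibleOfNonzero two_ne_zero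
  ((typeBEquivSo' l ℂ).trans (soIndefiniteEquiv (Unit ⊕ l) l ℂ Complex.I_mul_I)).trans
    (reindexSkew 1 1 (Fintype.equivFinOfCardEq h) (Matrix.submatrix_one_equiv _))

/-- Renaming for the symplectic Lie algebra. -/
noncomputable def spReindex (l : Type) [Fintype l] [DecidableEq l] {n : ℕ}
    (h : Fintype.card l = n) : sp l ℂ ≃ₗ⁅ℂ⁆ sp (Fin n) ℂ :=
  reindexSkew (Matrix.J l ℂ) (Matrix.J (Fin n) ℂ)
    (Equiv.sumCongr (Fintype.equivFinOfCardEq h) (Fintype.equivFinOfCardEq h)) (by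
      ext (i | i) (j | j) <;> simp [Matrix.J, Matrix.one_apply])

/-- The frame of `sl N`. -/
lemma exists_frame_sl {m N : ℕ} (hm : m ≠ 0) (hN : 5 * m + 1 ≤ N) :
    ∃ r : ℕ, Nonempty (Frame (sl (Fin N) ℂ) (Idx m r)) := by
  refine ⟨N - (5 * m + 1), ⟨?_⟩⟩
  haveI : Nonempty (Idx m (N - (5 * m + 1))) := ⟨Sum.inl (0, ⟨0, Nat.pos_of_ne_zero hm⟩)⟩
  exact (frameA (Idx m (N - (5 * m + 1)))).transport
    (reindexSl (Fintype.equivFinOfCardEq (by simp [Idx]; omega)))

/-- The frame of `so N`. -/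
lemma exists_frame_so {m N : ℕ} (hm : m ≠ 0) (hN : 10 * m + 2 ≤ N) :
    ∃ r : ℕ, Nonempty (Frame (so (Fin N) ℂ) (Idx m r)) := by
  refine ⟨N / 2 - (5 * m + 1), ⟨?_⟩⟩
  haveI : Nonempty (Idx m (N / 2 - (5 * m + 1))) := ⟨Sum.inl (0, ⟨0, Nat.pos_of_ne_zero hm⟩)⟩
  by_cases h2 : N % 2 = 0
  · exact (frameD (Idx m (N / 2 - (5 * m + 1)))).transport (dToSo _ (by simp [Idx]; omega))
  · exact (frameB (Idx m (N / 2 - (5 * m + 1)))).transport (bToSo _ (by simp [Idx]; omega))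

/-- The frame of `sp (2n)`. -/
lemma exists_frame_sp {m n : ℕ} (hm : m ≠ 0) (hn : 5 * m + 1 ≤ n) :
    ∃ r : ℕ, Nonempty (Frame (sp (Fin n) ℂ) (Idx m r)) := by
  refine ⟨n - (5 * m + 1), ⟨?_⟩⟩
  haveI : Nonempty (Idx m (n - (5 * m + 1))) := ⟨Sum.inl (0, ⟨0, Nat.pos_of_ne_zero hm⟩)⟩
  exact (frameC (Idx m (n - (5 * m + 1)))).transport (spReindex _ (by simp [Idx]; omega))

end Classical

end Pool.Agent.Work.MP_3d4872_al
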