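import Pool.Agent.Work.MP_3d4872_al.Family

/-!
# MP_3d4872_al: frames

A frame is the data in a Lie algebra `L` which allows one to recover a commuting pair of nilpotent
matrices from a pair of elements of `L`.
-/

set_option autoImplicit false
set_option linter.unusedSectionVars false

namespace Pool.Agent.Work.MP_3d4872_al

open Matrix LieAlgebra

/-- The data used to recover a pair of commuting nilpotent matrices. -/
structure Frame (L : Type*) [LieRing L] [LieAlgebra ℂ L] (ι : Type*) [Fintype ι]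
    [DecidableEq ι] where
  bx : Matrix ι ι ℂ → L
  ey : Matrix ι ι ℂ →ₗ[ℂ] L
  col : (ι → ℂ) →ₗ[ℂ] L
  row : (ι → ℂ) →ₗ[ℂ] L
  colp : L →ₗ[ℂ] (ι → ℂ)
  rowp : L →ₗ[ℂ] (ι → ℂ)
  c : ℂ
  c_ne : c ≠ 0
  colp_col : ∀ v, colp (col v) = v
  rowp_row : ∀ v, rowp (row v) = v
  bx_col : ∀ x₀, IsNilpotent x₀ → ∀ v, ⁅bx x₀, col v⁆ = col (x₀ *ᵥ v) + c • col v
  bx_row : ∀ x₀, IsNilpotent x₀ → ∀ v, ⁅bx x₀, row v⁆ = -(row (x₀ᵀ *ᵥ v) + c • row v)
  ey_col : ∀ y₀, IsNilpotent y₀ → ∀ v, ⁅ey y₀, col v⁆ = col (y₀ *ᵥ v)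
  ey_row : ∀ y₀, IsNilpotent y₀ → ∀ v, ⁅ey y₀, row v⁆ = -row (y₀ᵀ *ᵥ v)
  gen_col : ∀ x₀, IsNilpotent x₀ → ∀ (K : ℕ) (w : L),
    ((LieAlgebra.ad ℂ L (bx x₀) - c • 1 : Module.End ℂ L) ^ K) w = 0 → w = col (colp w)
  gen_row : ∀ x₀, IsNilpotent x₀ → ∀ (K : ℕ) (w : L),
    ((-LieAlgebra.ad ℂ L (bx x₀) - c • 1 : Module.End ℂ L) ^ K) w = 0 → w = row (rowp w)
  comm : ∀ x₀ y₀, x₀ * y₀ = y₀ * x₀ → ⁅bx x₀, ey y₀⁆ = 0
  kill_xy : ∀ x₀ y₀, IsNilpotent x₀ → IsNilpotent y₀ → x₀ * y₀ = y₀ * x₀ →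
    killingForm ℂ L (bx x₀) (ey y₀) = 0
  kxx : ℂ
  kxx_ne : kxx ≠ 0
  kill_xx : ∀ x₀, IsNilpotent x₀ → killingForm ℂ L (bx x₀) (bx x₀) = kxx
  conj : ∀ Q Q' : Matrix ι ι ℂ, Q * Q' = 1 → Q' * Q = 1 → ∃ ψ : L ≃ₗ⁅ℂ⁆ L,
    (∀ x₀, ψ (bx x₀) = bx (Q * x₀ * Q')) ∧ ∀ y₀, ψ (ey y₀) = ey (Q * y₀ * Q')

section Recover

variable {L : Type*} [LieRing L] [LieAlgebra ℂ L] {ι : Type*} [Fintype ι] [DecidableEq ι]

/-- The nilpotent pair is recovered from the pair in `L`, up to transposition. -/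
theorem Frame.recover (F : Frame L ι) {x₀ y₀ x₁ y₁ : Matrix ι ι ℂ} (hx₀ : IsNilpotent x₀)
    (hx₁ : IsNilpotent x₁) (hy₀ : IsNilpotent y₀) (hy₁ : IsNilpotent y₁) (s : ℂ)
    (φ : L ≃ₗ⁅ℂ⁆ L) (h1 : φ (F.bx x₁) = s • F.bx x₀) (h2 : φ (F.ey y₁) = s⁻¹ • F.ey y₀) :
    (∃ g : (ι → ℂ) →ₗ[ℂ] (ι → ℂ), Function.Injective g ∧ (∀ v, g (x₁ *ᵥ v) = x₀ *ᵥ g v) ∧
      ∀ v, g (y₁ *ᵥ v) = y₀ *ᵥ g v) ∨
    (∃ g : (ι → ℂ) →ₗ[ℂ] (ι → ℂ), Function.Injective g ∧ (∀ v, g (x₁ *ᵥ v) = x₀ᵀ *ᵥ g v) ∧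
      ∀ v, g (y₁ *ᵥ v) = y₀ᵀ *ᵥ g v) := by
  -- the scalar is a sign
  have hs2 : s * s = 1 := by
    have e := LieAlgebra.killingForm_of_equiv_apply φ (F.bx x₁) (F.bx x₁)
    rw [h1, map_smul, map_smul, LinearMap.smul_apply, F.kill_xx x₀ hx₀, F.kill_xx x₁ hx₁,
      smul_eq_mul, smul_eq_mul] at e
    have h0 := F.kxx_ne
    have : (s * s - 1) * F.kxx = 0 := by linear_combination e
    rcases mul_eq_zero.1 this with h | h
    · linear_combination h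
    · exact absurd h h0
  obtain ⟨K, hK⟩ := nilpotent_toLin x₁ hx₁
  have hgen : ∀ v, ((s • LieAlgebra.ad ℂ L (F.bx x₀) - F.c • 1 : Module.End ℂ L) ^ K)
      (φ (F.col v)) = 0 := by
    intro v
    have e1 : ∀ u, (φ : L →ₗ[ℂ] L)
        ((LieAlgebra.ad ℂ L (F.bx x₁) - F.c • 1 : Module.End ℂ L) u)
        = (s • LieAlgebra.ad ℂ L (F.bx x₀) - F.c • 1 : Module.End ℂ L)
          ((φ : L →ₗ[ℂ] L) u) := by
      intro u
      change φ (⁅F.bx x₁, u⁆ - F.c • u) = s • ⁅F.bx x₀, φ u⁆ - F.c • φ u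
      rw [map_sub, map_smul, LieEquiv.map_lie, h1, smul_lie]
    have e2 := pow_intertwine (φ : L →ₗ[ℂ] L) _ _ e1 K (F.col v)
    have e3 : ∀ u : ι → ℂ, F.col ((Matrix.toLin' x₁) u)
        = (LieAlgebra.ad ℂ L (F.bx x₁) - F.c • 1 : Module.End ℂ L) (F.col u) := by
      intro u
      rw [LinearMap.sub_apply, LieAlgebra.ad_apply, F.bx_col x₁ hx₁, Matrix.toLin'_apply,
        LinearMap.smul_apply, Module.End.one_apply, add_sub_cancel_right]
    have e4 := pow_intertwine F.col (Matrix.toLin' x₁) _ e3 K v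
    rw [hK, LinearMap.zero_apply, map_zero] at e4
    rw [← e4, map_zero] at e2
    exact e2.symm
  have hφinj : Function.Injective φ := φ.injective
  have hcinj : Function.Injective F.col := Function.LeftInverse.injective (g := F.colp) F.colp_col
  rcases mul_self_eq_one_iff.1 hs2 with hs1 | hs1
  · left
    subst hs1
    have hw : ∀ v, φ (F.col v) = F.col (F.colp (φ (F.col v))) := fun v => by
      have := hgen v
      rw [one_smul] at this
      exact F.gen_col x₀ hx₀ K _ this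
    refine ⟨F.colp ∘ₗ (φ : L →ₗ[ℂ] L) ∘ₗ F.col, ?_, ?_, ?_⟩
    · intro u v huv
      have huv' : F.colp (φ (F.col u)) = F.colp (φ (F.col v)) := huv
      apply hcinj
      apply hφinj
      rw [hw u, hw v, huv']
    · intro v
      change F.colp (φ (F.col (x₁ *ᵥ v))) = x₀ *ᵥ F.colp (φ (F.col v))
      have h3 : φ ⁅F.bx x₁, F.col v⁆ = ⁅F.bx x₀, φ (F.col v)⁆ := by
        rw [LieEquiv.map_lie, h1, one_smul]
      rw [hw v, F.bx_col x₁ hx₁, F.bx_col x₀ hx₀, map_add, map_smul] at h3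
      have h4 := congrArg F.colp h3
      rw [map_add, map_add, map_smul, map_smul, F.colp_col, F.colp_col] at h4
      exact add_right_cancel h4
    · intro v
      change F.colp (φ (F.col (y₁ *ᵥ v))) = y₀ *ᵥ F.colp (φ (F.col v))
      have h3 : φ ⁅F.ey y₁, F.col v⁆ = ⁅F.ey y₀, φ (F.col v)⁆ := by
        rw [LieEquiv.map_lie, h2, inv_one, one_smul]
      rw [hw v, F.ey_col y₁ hy₁, F.ey_col y₀ hy₀] at h3
      have h4 := congrArg F.colp h3
      rwa [F.colp_col] at h4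
  · right
    subst hs1
    have hw : ∀ v, φ (F.col v) = F.row (F.rowp (φ (F.col v))) := fun v => by
      have := hgen v
      rw [neg_smul, one_smul] at this
      exact F.gen_row x₀ hx₀ K _ this
    refine ⟨F.rowp ∘ₗ (φ : L →ₗ[ℂ] L) ∘ₗ F.col, ?_, ?_, ?_⟩
    · intro u v huv
      have huv' : F.rowp (φ (F.col u)) = F.rowp (φ (F.col v)) := huv
      apply hcinj
      apply hφinj
      rw [hw u, hw v, huv']
    · intro v
      change F.rowp (φ (F.col (x₁ *ᵥ v))) = x₀ᵀ *ᵥ F.rowp (φ (F.col v))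
      have h3 : φ ⁅F.bx x₁, F.col v⁆ = -⁅F.bx x₀, φ (F.col v)⁆ := by
        rw [LieEquiv.map_lie, h1, neg_smul, one_smul, neg_lie]
      rw [hw v, F.bx_col x₁ hx₁, F.bx_row x₀ hx₀, neg_neg, map_add, map_smul, hw v] at h3
      have h4 := congrArg F.rowp h3
      rw [map_add, map_add, map_smul, map_smul] at h4
      simp only [F.rowp_row] at h4
      exact add_right_cancel h4
    · intro v
      change F.rowp (φ (F.col (y₁ *ᵥ v))) = y₀ᵀ *ᵥ F.rowp (φ (F.col v))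
      have h3 : φ ⁅F.ey y₁, F.col v⁆ = -⁅F.ey y₀, φ (F.col v)⁆ := by
        rw [LieEquiv.map_lie, h2, show ((-1 : ℂ))⁻¹ = -1 by norm_num, neg_smul, one_smul, neg_lie]
      rw [hw v, F.ey_col y₁ hy₁, F.ey_row y₀ hy₀, neg_neg] at h3
      have h4 := congrArg F.rowp h3
      rwa [F.rowp_row] at h4

end Recover

section Transport

variable {L : Type*} [LieRing L] [LieAlgebra ℂ L] {ι : Type*} [Fintype ι] [DecidableEq ι]

lemma gen_transport {L' : Type*} [LieRing L'] [LieAlgebra ℂ L'] (e : L ≃ₗ⁅ℂ⁆ L') (x : L)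
    (s c : ℂ) (K : ℕ) (w : L')
    (h : ((s • LieAlgebra.ad ℂ L' (e x) - c • 1 : Module.End ℂ L') ^ K) w = 0) :
    ((s • LieAlgebra.ad ℂ L x - c • 1 : Module.End ℂ L) ^ K) (e.symm w) = 0 := by
  have e1 : ∀ u, (e.symm : L' →ₗ[ℂ] L)
      ((s • LieAlgebra.ad ℂ L' (e x) - c • 1 : Module.End ℂ L') u)
      = (s • LieAlgebra.ad ℂ L x - c • 1 : Module.End ℂ L) ((e.symm : L' →ₗ[ℂ] L) u) := by
    intro u
    change e.symm (s • ⁅e x, u⁆ - c • u) = s • ⁅x, e.symm u⁆ - c • e.symm u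
    rw [map_sub, map_smul, map_smul, LieEquiv.map_lie, LieEquiv.symm_apply_apply]
  have e2 := pow_intertwine (e.symm : L' →ₗ[ℂ] L) _ _ e1 K w
  rw [h, map_zero] at e2
  exact e2.symm

/-- Transport of a frame along an isomorphism. -/
def Frame.transport {L' : Type*} [LieRing L'] [LieAlgebra ℂ L'] (F : Frame L ι)
    (e : L ≃ₗ⁅ℂ⁆ L') : Frame L' ι where
  bx x₀ := e (F.bx x₀)
  ey := (e : L →ₗ[ℂ] L') ∘ₗ F.ey
  col := (e : L →ₗ[ℂ] L') ∘ₗ F.col
  row := (e : L →ₗ[ℂ] L') ∘ₗ F.row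
  colp := F.colp ∘ₗ (e.symm : L' →ₗ[ℂ] L)
  rowp := F.rowp ∘ₗ (e.symm : L' →ₗ[ℂ] L)
  c := F.c
  c_ne := F.c_ne
  colp_col v := by
    change F.colp (e.symm (e (F.col v))) = v
    rw [LieEquiv.symm_apply_apply, F.colp_col]
  rowp_row v := by
    change F.rowp (e.symm (e (F.row v))) = v
    rw [LieEquiv.symm_apply_apply, F.rowp_row]
  bx_col x₀ hx v := by
    change ⁅e (F.bx x₀), e (F.col v)⁆ = e (F.col (x₀ *ᵥ v)) + F.c • e (F.col v)
    rw [← LieEquiv.map_lie, F.bx_col x₀ hx, map_add, map_smul]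
  bx_row x₀ hx v := by
    change ⁅e (F.bx x₀), e (F.row v)⁆ = -(e (F.row (x₀ᵀ *ᵥ v)) + F.c • e (F.row v))
    rw [← LieEquiv.map_lie, F.bx_row x₀ hx, map_neg, map_add, map_smul]
  ey_col y₀ hy v := by
    change ⁅e (F.ey y₀), e (F.col v)⁆ = e (F.col (y₀ *ᵥ v))
    rw [← LieEquiv.map_lie, F.ey_col y₀ hy]
  ey_row y₀ hy v := by
    change ⁅e (F.ey y₀), e (F.row v)⁆ = -e (F.row (y₀ᵀ *ᵥ v))
    rw [← LieEquiv.map_lie, F.ey_row y₀ hy, map_neg]
  gen_col x₀ hx K w h := by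
    change w = e (F.col (F.colp (e.symm w)))
    have h1 := gen_transport e (F.bx x₀) 1 F.c K w (by rw [one_smul]; exact h)
    rw [one_smul] at h1
    rw [← F.gen_col x₀ hx K _ h1, LieEquiv.apply_symm_apply]
  gen_row x₀ hx K w h := by
    change w = e (F.row (F.rowp (e.symm w)))
    have h1 := gen_transport e (F.bx x₀) (-1) F.c K w (by rw [neg_smul, one_smul]; exact h)
    rw [neg_smul, one_smul] at h1
    rw [← F.gen_row x₀ hx K _ h1, LieEquiv.apply_symm_apply]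
  comm x₀ y₀ h := by
    change ⁅e (F.bx x₀), e (F.ey y₀)⁆ = 0
    rw [← LieEquiv.map_lie, F.comm x₀ y₀ h, map_zero]
  kill_xy x₀ y₀ hx hy h := by
    change killingForm ℂ L' (e (F.bx x₀)) (e (F.ey y₀)) = 0
    rw [LieAlgebra.killingForm_of_equiv_apply, F.kill_xy x₀ y₀ hx hy h]
  kxx := F.kxx
  kxx_ne := F.kxx_ne
  kill_xx x₀ hx := by
    rw [LieAlgebra.killingForm_of_equiv_apply, F.kill_xx x₀ hx]
  conj Q Q' h h' := by
    obtain ⟨ψ, h1, h2⟩ := F.conj Q Q' h h'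
    refine ⟨(e.symm.trans ψ).trans e, fun x₀ => ?_, fun y₀ => ?_⟩
    · change e (ψ (e.symm (e (F.bx x₀)))) = e (F.bx (Q * x₀ * Q'))
      rw [LieEquiv.symm_apply_apply, h1]
    · change e (ψ (e.symm (e (F.ey y₀)))) = e (F.ey (Q * y₀ * Q'))
      rw [LieEquiv.symm_apply_apply, h2]

end Transport

section Product

variable {L : Type*} [LieRing L] [LieAlgebra ℂ L] {ι : Type*} [Fintype ι] [DecidableEq ι]
variable {H : Type*} [LieRing H] [LieAlgebra ℂ H]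

lemma killing_prod [FiniteDimensional ℂ L] [FiniteDimensional ℂ H] (a b : L) :
    killingForm ℂ (L × H) (a, 0) (b, 0) = killingForm ℂ L a b := by
  have e : LieAlgebra.ad ℂ (L × H) (a, 0) ∘ₗ LieAlgebra.ad ℂ (L × H) (b, 0)
      = LinearMap.prodMap (LieAlgebra.ad ℂ L a ∘ₗ LieAlgebra.ad ℂ L b) (0 : H →ₗ[ℂ] H) := by
    apply LinearMap.ext
    rintro ⟨u, v⟩
    simp
  rw [killingForm_apply_apply, killingForm_apply_apply, e, LinearMap.trace_prodMap', map_zero,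
    add_zero]

lemma gen_prod (x : L) (s c : ℂ) (hc : c ≠ 0) (K : ℕ) (w : L × H)
    (h : ((s • LieAlgebra.ad ℂ (L × H) (x, 0) - c • 1 : Module.End ℂ (L × H)) ^ K) w = 0) :
    ((s • LieAlgebra.ad ℂ L x - c • 1 : Module.End ℂ L) ^ K) w.1 = 0 ∧ w.2 = 0 := by
  constructor
  · have e1 : ∀ u, (LinearMap.fst ℂ L H)
        ((s • LieAlgebra.ad ℂ (L × H) (x, 0) - c • 1 : Module.End ℂ (L × H)) u)
        = (s • LieAlgebra.ad ℂ L x - c • 1 : Module.End ℂ L) ((LinearMap.fst ℂ L H) u) := by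
      intro u
      simp
    have e2 := pow_intertwine (LinearMap.fst ℂ L H) _ _ e1 K w
    rw [h, map_zero] at e2
    exact e2.symm
  · have e1 : ∀ u, (LinearMap.snd ℂ L H)
        ((s • LieAlgebra.ad ℂ (L × H) (x, 0) - c • 1 : Module.End ℂ (L × H)) u)
        = ((-c) • (1 : Module.End ℂ H) + (0 : ℂ) • (0 : Module.End ℂ H))
          ((LinearMap.snd ℂ L H) u) := by
      intro u
      simp
    exact transfer (LinearMap.snd ℂ L H) _ _ e1
      (isUnit_of_nilpotent (-c) 0 (neg_ne_zero.2 hc) 0 IsNilpotent.zero) K w h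

/-- The frame of a direct product. -/
def Frame.prod [FiniteDimensional ℂ L] (F : Frame L ι) (H : Type*) [LieRing H] [LieAlgebra ℂ H]
    [FiniteDimensional ℂ H] : Frame (L × H) ι where
  bx x₀ := (F.bx x₀, 0)
  ey := LinearMap.inl ℂ L H ∘ₗ F.ey
  col := LinearMap.inl ℂ L H ∘ₗ F.col
  row := LinearMap.inl ℂ L H ∘ₗ F.row
  colp := F.colp ∘ₗ LinearMap.fst ℂ L H
  rowp := F.rowp ∘ₗ LinearMap.fst ℂ L H
  c := F.c
  c_ne := F.c_ne
  colp_col v := F.colp_col v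
  rowp_row v := F.rowp_row v
  bx_col x₀ hx v := by
    simp [F.bx_col x₀ hx]
  bx_row x₀ hx v := by
    simp [F.bx_row x₀ hx]
  ey_col y₀ hy v := by
    simp [F.ey_col y₀ hy]
  ey_row y₀ hy v := by
    simp [F.ey_row y₀ hy]
  gen_col x₀ hx K w h := by
    have h1 := gen_prod (F.bx x₀) 1 F.c F.c_ne K w (by rw [one_smul]; exact h)
    rw [one_smul] at h1
    exact Prod.ext (F.gen_col x₀ hx K _ h1.1) h1.2
  gen_row x₀ hx K w h := by
    have h1 := gen_prod (F.bx x₀) (-1) F.c F.c_ne K w (by rw [neg_smul, one_smul]; exact h)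
    rw [neg_smul, one_smul] at h1
    exact Prod.ext (F.gen_row x₀ hx K _ h1.1) h1.2
  comm x₀ y₀ h := by
    simp [F.comm x₀ y₀ h]
  kill_xy x₀ y₀ hx hy h := by
    exact (killing_prod _ _).trans (F.kill_xy x₀ y₀ hx hy h)
  kxx := F.kxx
  kxx_ne := F.kxx_ne
  kill_xx x₀ hx := (killing_prod _ _).trans (F.kill_xx x₀ hx)
  conj Q Q' h h' := by
    obtain ⟨ψ, h1, h2⟩ := F.conj Q Q' h h'
    refine ⟨{ toFun := fun w => (ψ w.1, w.2)
              map_add' := fun v w => by simp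
              map_smul' := fun c v => by simp
              map_lie' := by
                intro v w
                exact Prod.ext (LieEquiv.map_lie ψ v.1 w.1) rfl
              invFun := fun w => (ψ.symm w.1, w.2)
              left_inv := fun w => by simp
              right_inv := fun w => by simp }, fun x₀ => ?_, fun y₀ => ?_⟩
    · change (ψ (F.bx x₀), (0 : H)) = (F.bx (Q * x₀ * Q'), 0)
      rw [h1]
    · change (ψ (F.ey y₀), (0 : H)) = (F.ey (Q * y₀ * Q'), 0)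
      rw [h2]

end Product

end Pool.Agent.Work.MP_3d4872_al
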