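import Pool.Agent.Work.MP_3d4872_al.Defs

/-!
# MP_3d4872_al: rank-one compatible Lie brackets on a semisimple Lie algebra

For commuting, Killing-orthogonal elements `x, y` of a Lie algebra `L`, the operator
`R X = κ(y, X) x` defines a compatible Lie bracket. If the Killing form is nondegenerate, two such
brackets are equivalent exactly when the pairs are conjugate under `Aut L`, up to
`(x, y) ↦ (s x, s⁻¹ y)`.
-/

set_option autoImplicit false

namespace Pool.Agent.Work.MP_3d4872_al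

section General

variable {L : Type*} [LieRing L] [LieAlgebra ℂ L]

@[simp] lemma ownBracket_apply (X Y : L) : ownBracket L X Y = ⁅X, Y⁆ := rfl

@[simp] lemma opBracket_apply (R : L →ₗ[ℂ] L) (X Y : L) :
    opBracket R X Y = ⁅R X, Y⁆ + ⁅X, R Y⁆ - R ⁅X, Y⁆ := rfl

@[simp] lemma rankOne_apply (x y X : L) : rankOne x y X = killingForm ℂ L y X • x := rfl

lemma pairBracket_apply (x y X Y : L) :
    pairBracket x y X Y = killingForm ℂ L y X • ⁅x, Y⁆ - killingForm ℂ L y Y • ⁅x, X⁆
      - killingForm ℂ L y ⁅X, Y⁆ • x := by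
  simp only [pairBracket, opBracket_apply, rankOne_apply, smul_lie, lie_smul, sub_eq_add_neg]
  rw [← lie_skew x X, smul_neg, neg_neg]

/-- A bilinear map of the form `A⁻¹ [A X, A Y]` is a Lie bracket. -/
lemma isLieBr_of_conj (β : L →ₗ[ℂ] L →ₗ[ℂ] L) (A B : L →ₗ[ℂ] L) (hAB : ∀ X, A (B X) = X)
    (h : ∀ X Y, β X Y = B ⁅A X, A Y⁆) : IsLieBr β := by
  refine ⟨fun X => by simp [h], fun X Y Z => ?_⟩
  simp only [h, hAB, ← map_add]
  rw [lie_jacobi, map_zero]

lemma rank_facts {x y : L} (hxy : ⁅x, y⁆ = 0) (hk : killingForm ℂ L x y = 0) :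
    (∀ X Y, ⁅rankOne x y X, rankOne x y Y⁆ = 0) ∧ (∀ X Y, rankOne x y ⁅rankOne x y X, Y⁆ = 0) ∧
      (∀ X, rankOne x y (rankOne x y X) = 0) := by
  have hyx : ⁅y, x⁆ = 0 := by rw [← lie_skew, hxy, neg_zero]
  refine ⟨fun X Y => by simp, fun X Y => ?_, fun X => ?_⟩
  · simp only [rankOne_apply, smul_lie, map_smul]
    rw [← LieModule.traceForm_apply_lie_apply, hyx]
    simp
  · have hk' : killingForm ℂ L y x = 0 := by rw [LieModule.traceForm_comm, hk]
    simp only [rankOne_apply, map_smul]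
    rw [hk']
    simp

/-- For commuting and Killing-orthogonal `x, y`, the bracket of the pair is compatible. -/
theorem compatible_pairBracket {x y : L} (hxy : ⁅x, y⁆ = 0) (hk : killingForm ℂ L x y = 0) :
    Compatible (pairBracket x y) := by
  obtain ⟨h1, h2, h3⟩ := rank_facts hxy hk
  have h2' : ∀ X Y : L, rankOne x y ⁅X, rankOne x y Y⁆ = 0 := by
    intro X Y
    rw [← lie_skew, map_neg, h2, neg_zero]
  have key : ∀ c : ℂ, IsLieBr (ownBracket L + c • pairBracket x y) := by
    intro c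
    set R := rankOne x y with hR
    refine isLieBr_of_conj _ (LinearMap.id + c • R) (LinearMap.id - c • R) (fun X => ?_)
      (fun X Y => ?_)
    · simp only [LinearMap.add_apply, LinearMap.sub_apply, LinearMap.id_apply, LinearMap.smul_apply,
        map_sub, map_smul, h3, smul_zero]
      module
    · simp only [pairBracket, ← hR, LinearMap.add_apply, LinearMap.sub_apply, LinearMap.id_apply,
        LinearMap.smul_apply, ownBracket_apply, opBracket_apply, add_lie, lie_add, smul_lie,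
        lie_smul, h1, smul_zero, add_zero, map_add, map_smul, h2, h2', smul_sub, smul_add]
      module
  refine ⟨⟨fun X => ?_, fun X Y Z => ?_⟩, key⟩
  · rw [pairBracket_apply]
    simp
  · have k1 := (key 1).2 X Y Z
    have k2 := (key (-1)).2 X Y Z
    have k0 := lie_jacobi X Y Z
    simp only [LinearMap.add_apply, LinearMap.smul_apply, ownBracket_apply, one_smul, neg_smul,
      map_add, map_neg, lie_add, lie_neg, LinearMap.neg_apply] at k1 k2
    set a := pairBracket x y X (pairBracket x y Y Z)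
    set b := pairBracket x y Y (pairBracket x y Z X)
    set c := pairBracket x y Z (pairBracket x y X Y)
    have : (2 : ℂ) • (a + b + c) = 0 := by
      linear_combination (norm := module) k1 + k2 - (2 : ℂ) • k0
    exact (smul_eq_zero.mp this).resolve_left two_ne_zero

section Killing

lemma trace_rankOne_comp_ad [FiniteDimensional ℂ L] {x y : L} (hxy : ⁅x, y⁆ = 0) (Z : L) :
    LinearMap.trace ℂ L (rankOne x y ∘ₗ LieAlgebra.ad ℂ L Z) = 0 := by
  have hyx : ⁅y, x⁆ = 0 := by rw [← lie_skew, hxy, neg_zero]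
  have e : rankOne x y ∘ₗ LieAlgebra.ad ℂ L Z
      = ((killingForm ℂ L y) ∘ₗ (LieAlgebra.ad ℂ L Z : L →ₗ[ℂ] L)).smulRight x := by
    ext X
    simp
  rw [e, LinearMap.trace_smulRight]
  simp only [LinearMap.comp_apply, LieAlgebra.ad_apply]
  rw [← lie_skew, map_neg, ← LieModule.traceForm_apply_lie_apply, hyx]
  simp

lemma killing_derivation (D : L →ₗ[ℂ] L) (hD : ∀ X Y, D ⁅X, Y⁆ = ⁅D X, Y⁆ + ⁅X, D Y⁆) (X Y : L) :
    killingForm ℂ L (D X) Y = LinearMap.trace ℂ L (D ∘ₗ LieAlgebra.ad ℂ L ⁅X, Y⁆) := by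
  have e1 : LieAlgebra.ad ℂ L (D X)
      = D ∘ₗ LieAlgebra.ad ℂ L X - LieAlgebra.ad ℂ L X ∘ₗ D := by
    ext Z
    simp only [LieAlgebra.ad_apply, LinearMap.sub_apply, LinearMap.comp_apply, hD]
    abel
  have e2 : LieAlgebra.ad ℂ L ⁅X, Y⁆ = LieAlgebra.ad ℂ L X ∘ₗ LieAlgebra.ad ℂ L Y
      - LieAlgebra.ad ℂ L Y ∘ₗ LieAlgebra.ad ℂ L X := by
    ext Z
    simp
  rw [killingForm_apply_apply, e1, e2]
  simp only [LinearMap.comp_sub, LinearMap.sub_comp, map_sub]
  congr 1
  have := LinearMap.trace_mul_comm ℂ (LieAlgebra.ad ℂ L X : Module.End ℂ L)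
    (D ∘ₗ LieAlgebra.ad ℂ L Y)
  simpa [Module.End.mul_eq_comp, LinearMap.comp_assoc] using this

variable [LieAlgebra.IsKilling ℂ L]

lemma eq_zero_of_killing {X : L} (h : ∀ Y, killingForm ℂ L X Y = 0) : X = 0 := by
  have := LieAlgebra.IsKilling.ker_killingForm_eq_bot ℂ L
  have hX : X ∈ LinearMap.ker (killingForm ℂ L) := by
    rw [LinearMap.mem_ker]
    ext Y
    simpa using h Y
  rw [this] at hX
  simpa using hX

variable [FiniteDimensional ℂ L]

theorem exists_scalar {x y x' y' : L} (hxy : ⁅x, y⁆ = 0) (hxy' : ⁅x', y'⁆ = 0) (hx' : x' ≠ 0)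
    (hy' : y' ≠ 0) (φ : L ≃ₗ⁅ℂ⁆ L)
    (h : ∀ X Y, pairBracket x' y' X Y = φ.symm (pairBracket x y (φ X) (φ Y))) :
    ∃ s : ℂ, s ≠ 0 ∧ φ x' = s • x ∧ φ y' = s⁻¹ • y := by
  set x'' := φ.symm x with hx''
  set y'' := φ.symm y with hy''
  have hφx : φ x'' = x := by simp [hx'']
  have hφy : φ y'' = y := by simp [hy'']
  have hxy'' : ⁅x'', y''⁆ = 0 := by
    rw [hx'', hy'', ← LieEquiv.map_lie, hxy, map_zero]
  have hk : ∀ X, killingForm ℂ L y (φ X) = killingForm ℂ L y'' X := by
    intro X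
    rw [← hφy, LieAlgebra.killingForm_of_equiv_apply]
  have hR : ∀ X, φ.symm (rankOne x y (φ X)) = rankOne x'' y'' X := by
    intro X
    rw [rankOne_apply, rankOne_apply, hk, map_smul]
  set D := rankOne x'' y'' - rankOne x' y' with hDdef
  have hD : ∀ X Y, D ⁅X, Y⁆ = ⁅D X, Y⁆ + ⁅X, D Y⁆ := by
    intro X Y
    have := h X Y
    simp only [pairBracket, opBracket_apply, map_sub, map_add, LieEquiv.map_lie,
      LieEquiv.symm_apply_apply, hR] at this
    rw [← LieEquiv.map_lie, hR] at this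
    simp only [hDdef, LinearMap.sub_apply, sub_lie, lie_sub]
    linear_combination (norm := module) this
  have hD0 : ∀ X, D X = 0 := by
    intro X
    apply eq_zero_of_killing
    intro Y
    rw [killing_derivation D hD, hDdef, LinearMap.sub_comp, map_sub,
      trace_rankOne_comp_ad hxy'', trace_rankOne_comp_ad hxy', sub_zero]
  have hE : ∀ X, killingForm ℂ L y'' X • x'' = killingForm ℂ L y' X • x' := by
    intro X
    have := hD0 X
    rw [hDdef, LinearMap.sub_apply, rankOne_apply, rankOne_apply, sub_eq_zero] at this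
    exact this
  obtain ⟨X₀, hX₀⟩ : ∃ X, killingForm ℂ L y' X ≠ 0 := by
    by_contra hcon
    push Not at hcon
    exact hy' (eq_zero_of_killing hcon)
  set r := (killingForm ℂ L y' X₀)⁻¹ * killingForm ℂ L y'' X₀ with hr
  have hx1 : x' = r • x'' := by
    rw [hr, mul_smul, hE, smul_smul, inv_mul_cancel₀ hX₀, one_smul]
  have hr0 : r ≠ 0 := by
    rintro h0
    rw [h0, zero_smul] at hx1
    exact hx' hx1
  have hx''0 : x'' ≠ 0 := by
    rintro h0
    rw [h0, smul_zero] at hx1
    exact hx' hx1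
  have hy1 : y'' = r • y' := by
    rw [← sub_eq_zero]
    apply eq_zero_of_killing
    intro X
    have := hE X
    rw [hx1, smul_smul, ← sub_eq_zero, ← sub_smul] at this
    have h2 := (smul_eq_zero.mp this).resolve_right hx''0
    rw [map_sub, LinearMap.sub_apply, map_smul, LinearMap.smul_apply, smul_eq_mul]
    linear_combination h2
  refine ⟨r, hr0, ?_, ?_⟩
  · rw [hx1, map_smul, hφx]
  · rw [← hφy, hy1, map_smul, smul_smul, inv_mul_cancel₀ hr0, one_smul]

theorem equivalent_iff {x y x' y' : L} (hxy : ⁅x, y⁆ = 0) (hxy' : ⁅x', y'⁆ = 0) (hx' : x' ≠ 0)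
    (hy' : y' ≠ 0) :
    Equivalent (pairBracket x y) (pairBracket x' y') ↔
      ∃ φ : L ≃ₗ⁅ℂ⁆ L, ∃ s : ℂ, s ≠ 0 ∧ φ x' = s • x ∧ φ y' = s⁻¹ • y := by
  constructor
  · rintro ⟨φ, h⟩
    exact ⟨φ, exists_scalar hxy hxy' hx' hy' φ h⟩
  · rintro ⟨φ, s, hs, h1, h2⟩
    refine ⟨φ, fun X Y => ?_⟩
    have hx1 : x = s⁻¹ • φ x' := by rw [h1, smul_smul, inv_mul_cancel₀ hs, one_smul]
    have hy1 : y = s • φ y' := by rw [h2, smul_smul, mul_inv_cancel₀ hs, one_smul]
    have key : pairBracket x y (φ X) (φ Y) = φ (pairBracket x' y' X Y) := by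
      have c : ∀ t : ℂ, s * t * s⁻¹ = t := fun t => by field_simp
      rw [pairBracket_apply, pairBracket_apply, hx1, hy1]
      simp only [← LieEquiv.map_lie, map_sub, map_smul, LinearMap.smul_apply, smul_lie,
        LieAlgebra.killingForm_of_equiv_apply, smul_smul, smul_eq_mul, c]
    rw [key, LieEquiv.symm_apply_apply]

end Killing

end General

end Pool.Agent.Work.MP_3d4872_al
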