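import Pool.Agent.Work.MP_3d4872_al.Contains

/-!
# MP_3d4872_al: the Killing form of the orthogonal and symplectic Lie algebras
-/

set_option autoImplicit false
set_option linter.unusedSectionVars false

namespace Pool.Agent.Work.MP_3d4872_al

open Matrix LieAlgebra

attribute [local instance 100] LieRing.ofAssociativeRing

section Skew

variable {n : Type*} [Fintype n] [DecidableEq n]

lemma mem_skew (J A : Matrix n n ℂ) :
    A ∈ skewAdjointMatricesLieSubalgebra J ↔ Aᵀ * J = -(J * A) := by
  rw [mem_skewAdjointMatricesLieSubalgebra, mem_skewAdjointMatricesSubmodule]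
  change Aᵀ * J = J * (-A) ↔ _
  rw [Matrix.mul_neg]

lemma trace_mul_transpose_mul (A B : Matrix n n ℂ) :
    LinearMap.trace ℂ (Matrix n n ℂ) (LinearMap.mulLeft ℂ A ∘ₗ LinearMap.mulRight ℂ B ∘ₗ
      (Matrix.transposeLinearEquiv n n ℂ ℂ : Matrix n n ℂ →ₗ[ℂ] Matrix n n ℂ))
      = (A * Bᵀ).trace := by
  rw [LinearMap.trace_eq_matrix_trace ℂ (Matrix.stdBasis ℂ n n)]
  have : ∀ (M : Matrix n n ℂ) (p : n × n), (Matrix.stdBasis ℂ n n).repr M p = M p.1 p.2 := by
    intro M p
    rfl
  simp only [Matrix.trace, Matrix.diag_apply, LinearMap.toMatrix_apply, this, LinearMap.comp_apply,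
    LinearMap.mulLeft_apply, LinearMap.mulRight_apply, LinearEquiv.coe_coe,
    Matrix.transposeLinearEquiv_apply]
  rw [Fintype.sum_prod_type]
  refine Finset.sum_congr rfl fun i _ => ?_
  rw [Matrix.mul_apply]
  refine Finset.sum_congr rfl fun j _ => ?_
  rw [Matrix.stdBasis_eq_single]
  simp [Matrix.mul_apply, Matrix.single_apply, Finset.sum_ite_eq, ite_and]

/-- The Killing form of the Lie algebra of an `ε`-symmetric form. -/
lemma killing_skew {J J' : Matrix n n ℂ} (hJ : J * J' = 1) (hJ' : J' * J = 1) {ε : ℂ}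
    (hε : ε * ε = 1) (hsym : Jᵀ = ε • J) (X Y : skewAdjointMatricesLieSubalgebra J) :
    killingForm ℂ (skewAdjointMatricesLieSubalgebra J) X Y
      = ((Fintype.card n : ℂ) - 2 * ε) * (X.val * Y.val).trace := by
  have hX := (mem_skew J X.val).1 X.2
  have hY := (mem_skew J Y.val).1 Y.2
  have hsym' : J'ᵀ = ε • J' := by
    have h1 : J'ᵀ * (ε • J) = 1 := by
      rw [← hsym, ← Matrix.transpose_mul, hJ, Matrix.transpose_one]
    calc J'ᵀ = (J'ᵀ * (ε • J)) * (ε • J') := by
          simp only [Matrix.mul_smul, Matrix.smul_mul, smul_smul, hε, one_smul, mul_assoc, hJ,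
            mul_one]
      _ = ε • J' := by rw [h1, one_mul]
  have tr0 : ∀ W : Matrix n n ℂ, Wᵀ * J = -(J * W) → W.trace = 0 := by
    intro W hW
    have h1 : Wᵀ = -(J * W * J') := by
      rw [← neg_mul, ← hW, mul_assoc, hJ, mul_one]
    have h2 : W.trace = -W.trace := by
      conv_lhs => rw [← Matrix.trace_transpose, h1, Matrix.trace_neg, Matrix.trace_mul_comm,
        ← mul_assoc, hJ', one_mul]
    linear_combination h2 / 2
  have hX0 := tr0 _ hX
  have hY0 := tr0 _ hY
  set T : Matrix n n ℂ →ₗ[ℂ] Matrix n n ℂ :=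
    (Matrix.transposeLinearEquiv n n ℂ ℂ : Matrix n n ℂ →ₗ[ℂ] Matrix n n ℂ) with hT
  set x := X.val with hx
  set y := Y.val with hy
  set f : Matrix n n ℂ →ₗ[ℂ] Matrix n n ℂ := (2 : ℂ)⁻¹ •
    ((LinearMap.mulLeft ℂ (x * y) ∘ₗ LinearMap.mulRight ℂ 1
      - LinearMap.mulLeft ℂ x ∘ₗ LinearMap.mulRight ℂ y
      - LinearMap.mulLeft ℂ y ∘ₗ LinearMap.mulRight ℂ x
      + LinearMap.mulLeft ℂ 1 ∘ₗ LinearMap.mulRight ℂ (y * x))
    - (LinearMap.mulLeft ℂ (x * y * J') ∘ₗ LinearMap.mulRight ℂ J ∘ₗ T
      - LinearMap.mulLeft ℂ (x * J') ∘ₗ LinearMap.mulRight ℂ (J * y) ∘ₗ T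
      - LinearMap.mulLeft ℂ (y * J') ∘ₗ LinearMap.mulRight ℂ (J * x) ∘ₗ T
      + LinearMap.mulLeft ℂ J' ∘ₗ LinearMap.mulRight ℂ (J * (y * x)) ∘ₗ T)) with hf
  have hfa : ∀ Z, f Z = ⁅x, ⁅y, (2 : ℂ)⁻¹ • (Z - J' * Zᵀ * J)⁆⁆ := by
    intro Z
    simp only [hf, hT, LinearMap.add_apply, LinearMap.sub_apply, LinearMap.smul_apply,
      LinearMap.comp_apply, LinearMap.mulLeft_apply, LinearMap.mulRight_apply,
      LieRing.of_associative_ring_bracket, LinearEquiv.coe_coe, Matrix.transposeLinearEquiv_apply,
      Matrix.mul_smul, Matrix.smul_mul]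
    rw [← smul_sub, Matrix.mul_smul, Matrix.smul_mul, ← smul_sub]
    congr 1
    noncomm_ring
  have hproj : ∀ Z : Matrix n n ℂ,
      (2 : ℂ)⁻¹ • (Z - J' * Zᵀ * J) ∈ skewAdjointMatricesLieSubalgebra J := by
    intro Z
    have e0 : (J' * Zᵀ * J)ᵀ * J = J * Z := by
      rw [Matrix.transpose_mul, Matrix.transpose_mul, Matrix.transpose_transpose, hsym, hsym']
      simp only [Matrix.mul_smul, Matrix.smul_mul, smul_smul, hε, one_smul, mul_assoc, hJ',
        mul_one]
    have e1 : J * (J' * Zᵀ * J) = Zᵀ * J := by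
      rw [← mul_assoc, ← mul_assoc, hJ, one_mul]
    rw [mem_skew, Matrix.transpose_smul, Matrix.transpose_sub, Matrix.smul_mul, Matrix.mul_smul,
      sub_mul, e0, mul_sub, e1, ← smul_neg, neg_sub]
  have hmem : ∀ Z, f Z ∈ (skewAdjointMatricesLieSubalgebra J).toSubmodule := by
    intro Z
    rw [hfa]
    exact (skewAdjointMatricesLieSubalgebra J).lie_mem X.2
      ((skewAdjointMatricesLieSubalgebra J).lie_mem Y.2 (hproj Z))
  have hfix : ∀ Z : skewAdjointMatricesLieSubalgebra J,
      (2 : ℂ)⁻¹ • (Z.val - J' * Z.valᵀ * J) = Z.val := by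
    intro Z
    have hZ := (mem_skew J Z.val).1 Z.2
    rw [mul_assoc, hZ, mul_neg, ← mul_assoc, hJ', one_mul, sub_neg_eq_add, ← two_smul ℂ, smul_smul]
    norm_num
  have e : LieAlgebra.ad ℂ (skewAdjointMatricesLieSubalgebra J) X
      ∘ₗ LieAlgebra.ad ℂ (skewAdjointMatricesLieSubalgebra J) Y
      = f.restrict (fun Z _ => hmem Z) := by
    apply LinearMap.ext
    intro Z
    apply Subtype.ext
    rw [LinearMap.coe_restrict_apply, hfa, hfix Z]
    rfl
  have e2 := LinearMap.trace_restrict_eq_of_forall_mem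
    (skewAdjointMatricesLieSubalgebra J).toSubmodule f hmem
  rw [killingForm_apply_apply, e]
  refine Eq.trans e2 ?_
  rw [hf]
  simp only [map_add, map_sub, map_smul, trace_mul_mul, hX0, hY0, Matrix.trace_one, hT,
    trace_mul_transpose_mul]
  have t1 : (x * y * J' * Jᵀ).trace = ε * (x * y).trace := by
    rw [hsym, Matrix.mul_smul, Matrix.trace_smul, mul_assoc (x * y), hJ', mul_one, smul_eq_mul]
  have t2 : ∀ a b : Matrix n n ℂ, bᵀ * J = -(J * b) →
      (a * J' * (J * b)ᵀ).trace = -ε * (a * b).trace := by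
    intro a b hb
    rw [Matrix.transpose_mul, hsym, Matrix.mul_smul, Matrix.mul_smul, Matrix.trace_smul, hb,
      Matrix.mul_neg, Matrix.trace_neg, mul_assoc a, ← mul_assoc J', hJ', one_mul, smul_eq_mul]
    ring
  have t3 : (J' * (J * (y * x))ᵀ).trace = ε * (x * y).trace := by
    rw [Matrix.transpose_mul, hsym, Matrix.mul_smul, Matrix.mul_smul, Matrix.trace_smul,
      Matrix.trace_mul_comm, mul_assoc, hJ, mul_one, Matrix.trace_transpose,
      Matrix.trace_mul_comm y, smul_eq_mul]
  rw [t1, t2 x y hY, t2 y x hX, t3, Matrix.trace_mul_comm y x]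
  simp only [smul_eq_mul]
  ring

/-- Conjugation by an isometry of the form. -/
def conjSkew {J : Matrix n n ℂ} (G H : Matrix n n ℂ) (hGH : G * H = 1) (hHG : H * G = 1)
    (h1 : Gᵀ * J = J * H) (h2 : Hᵀ * J = J * G) :
    skewAdjointMatricesLieSubalgebra J ≃ₗ⁅ℂ⁆ skewAdjointMatricesLieSubalgebra J where
  toFun w := ⟨G * w.val * H, by
    have hw := (mem_skew J w.val).1 w.2
    rw [mem_skew]
    calc (G * w.val * H)ᵀ * J = Hᵀ * w.valᵀ * (Gᵀ * J) := by
          rw [Matrix.transpose_mul, Matrix.transpose_mul]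
          noncomm_ring
      _ = Hᵀ * (w.valᵀ * J) * H := by rw [h1]; noncomm_ring
      _ = -((Hᵀ * J) * w.val * H) := by rw [hw]; noncomm_ring
      _ = -(J * (G * w.val * H)) := by rw [h2]; noncomm_ring⟩
  map_add' v w := by
    apply Subtype.ext
    change G * (v.val + w.val) * H = G * v.val * H + G * w.val * H
    rw [mul_add, add_mul]
  map_smul' c w := by
    apply Subtype.ext
    change G * (c • w.val) * H = c • (G * w.val * H)
    simp
  map_lie' := by
    intro v w
    apply Subtype.ext
    change G * (v.val * w.val - w.val * v.val) * H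
      = (G * v.val * H) * (G * w.val * H) - (G * w.val * H) * (G * v.val * H)
    have e : ∀ a b : Matrix n n ℂ, (G * a * H) * (G * b * H) = G * (a * b) * H := by
      intro a b
      calc (G * a * H) * (G * b * H) = G * a * (H * G) * b * H := by noncomm_ring
        _ = G * (a * b) * H := by rw [hHG]; noncomm_ring
    rw [e, e]
    noncomm_ring
  invFun w := ⟨H * w.val * G, by
    have hw := (mem_skew J w.val).1 w.2
    rw [mem_skew]
    calc (H * w.val * G)ᵀ * J = Gᵀ * w.valᵀ * (Hᵀ * J) := by
          rw [Matrix.transpose_mul, Matrix.transpose_mul]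
          noncomm_ring
      _ = Gᵀ * (w.valᵀ * J) * G := by rw [h2]; noncomm_ring
      _ = -((Gᵀ * J) * w.val * G) := by rw [hw]; noncomm_ring
      _ = -(J * (H * w.val * G)) := by rw [h1]; noncomm_ring⟩
  left_inv w := by
    apply Subtype.ext
    change H * (G * w.val * H) * G = w.val
    calc H * (G * w.val * H) * G = (H * G) * w.val * (H * G) := by noncomm_ring
      _ = w.val := by rw [hHG, one_mul, mul_one]
  right_inv w := by
    apply Subtype.ext
    change G * (H * w.val * G) * H = w.val
    calc G * (H * w.val * G) * H = (G * H) * w.val * (G * H) := by noncomm_ring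
      _ = w.val := by rw [hGH, one_mul, mul_one]

lemma conjSkew_apply {J : Matrix n n ℂ} (G H : Matrix n n ℂ) (hGH : G * H = 1) (hHG : H * G = 1)
    (h1 : Gᵀ * J = J * H) (h2 : Hᵀ * J = J * G) (w : skewAdjointMatricesLieSubalgebra J) :
    (conjSkew G H hGH hHG h1 h2 w).val = G * w.val * H := rfl

end Skew

section Entries

variable {n : Type*} [Fintype n] [DecidableEq n]

/-- The part of a matrix of weight `τ` with respect to the diagonal matrix of the numbers `a i`. -/
noncomputable def wtPart (a : n → ℂ) (τ : ℂ) : Matrix n n ℂ →ₗ[ℂ] Matrix n n ℂ where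
  toFun w := Matrix.of fun i j => open Classical in if a i - a j = τ then w i j else 0
  map_add' v w := by
    ext i j
    simp only [Matrix.of_apply, Matrix.add_apply]
    split_ifs <;> simp
  map_smul' c v := by
    ext i j
    simp only [Matrix.of_apply, Matrix.smul_apply, RingHom.id_apply]
    split_ifs <;> simp

lemma wtPart_apply (a : n → ℂ) (τ : ℂ) (w : Matrix n n ℂ) (i j : n) :
    wtPart a τ w i j = open Classical in if a i - a j = τ then w i j else 0 := rfl

/-- Generalized eigenvectors of the commutator with `diagonal a + N`. -/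
lemma entry_eq_zero (a : n → ℂ) (N : Matrix n n ℂ) (hN : IsNilpotent N)
    (hNa : ∀ i j, a i ≠ a j → N i j = 0) (s c : ℂ) (K : ℕ) (w : Matrix n n ℂ)
    (hw : ((s • (LinearMap.mulLeft ℂ (Matrix.diagonal a + N)
      - LinearMap.mulRight ℂ (Matrix.diagonal a + N)) - c • 1 :
        Module.End ℂ (Matrix n n ℂ)) ^ K) w = 0) (i j : n) (hij : s * (a i - a j) ≠ c) :
    w i j = 0 := by
  set τ := a i - a j with hτ
  have key : wtPart a τ w = 0 := by
    refine transfer (wtPart a τ) _ ((s * τ - c) • (1 : Module.End ℂ (Matrix n n ℂ))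
      + s • (LinearMap.mulLeft ℂ N - LinearMap.mulRight ℂ N)) ?_
      (isUnit_of_nilpotent _ _ (sub_ne_zero.2 hij) _ (nilpotent_comm N hN)) K w hw
    intro u
    have e1 : wtPart a τ (Matrix.diagonal a * u - u * Matrix.diagonal a)
        = τ • wtPart a τ u := by
      ext k l
      rw [wtPart_apply, Matrix.smul_apply, wtPart_apply, Matrix.sub_apply,
        Matrix.diagonal_mul, Matrix.mul_diagonal]
      split_ifs with h
      · rw [← h, smul_eq_mul]
        ring
      · rw [smul_zero]
    have e2 : wtPart a τ (N * u) = N * wtPart a τ u := by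
      ext k l
      rw [wtPart_apply, Matrix.mul_apply, Matrix.mul_apply]
      split_ifs with h
      · refine Finset.sum_congr rfl fun q _ => ?_
        rw [wtPart_apply]
        by_cases hq : a k = a q
        · rw [if_pos (by rw [← hq]; exact h)]
        · rw [hNa k q hq, zero_mul, zero_mul]
      · symm
        refine Finset.sum_eq_zero fun q _ => ?_
        rw [wtPart_apply]
        by_cases hq : a k = a q
        · rw [if_neg (by rw [← hq]; exact h), mul_zero]
        · rw [hNa k q hq, zero_mul]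
    have e3 : wtPart a τ (u * N) = wtPart a τ u * N := by
      ext k l
      rw [wtPart_apply, Matrix.mul_apply, Matrix.mul_apply]
      split_ifs with h
      · refine Finset.sum_congr rfl fun q _ => ?_
        rw [wtPart_apply]
        by_cases hq : a q = a l
        · rw [if_pos (by rw [hq]; exact h)]
        · rw [hNa q l hq, mul_zero, mul_zero]
      · symm
        refine Finset.sum_eq_zero fun q _ => ?_
        rw [wtPart_apply]
        by_cases hq : a q = a l
        · rw [if_neg (by rw [hq]; exact h), zero_mul]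
        · rw [hNa q l hq, mul_zero]
    have e4 : (s • (LinearMap.mulLeft ℂ (Matrix.diagonal a + N)
      - LinearMap.mulRight ℂ (Matrix.diagonal a + N)) - c • 1 :
        Module.End ℂ (Matrix n n ℂ)) u
        = s • (Matrix.diagonal a * u - u * Matrix.diagonal a) + s • (N * u) - s • (u * N)
          - c • u := by
      simp only [LinearMap.sub_apply, LinearMap.smul_apply, LinearMap.mulLeft_apply,
        LinearMap.mulRight_apply, Module.End.one_apply, add_mul, mul_add]
      module
    rw [e4, map_sub, map_sub, map_add, map_smul, map_smul, map_smul, map_smul, e1, e2, e3]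
    simp only [LinearMap.add_apply, LinearMap.smul_apply, LinearMap.sub_apply,
      LinearMap.mulLeft_apply, LinearMap.mulRight_apply, Module.End.one_apply]
    module
  have := congrFun (congrFun key i) j
  rw [wtPart_apply, if_pos hτ.symm] at this
  exact this

end Entries

end Pool.Agent.Work.MP_3d4872_al
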