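import Pool.Agent.Work.MP_3d4872_al.General

/-!
# MP_3d4872_al: the Killing form of `sl n` over the complex numbers
-/

set_option autoImplicit false

namespace Pool.Agent.Work.MP_3d4872_al

open Matrix LieAlgebra LieAlgebra.SpecialLinear

attribute [local instance 100] LieRing.ofAssociativeRing

section KillingSL

variable {n : Type*} [Fintype n] [DecidableEq n]

lemma trace_mul_mul (A B : Matrix n n ℂ) :
    LinearMap.trace ℂ (Matrix n n ℂ) (LinearMap.mulLeft ℂ A ∘ₗ LinearMap.mulRight ℂ B)
      = A.trace * B.trace := by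
  rw [LinearMap.trace_eq_matrix_trace ℂ (Matrix.stdBasis ℂ n n)]
  have : ∀ (M : Matrix n n ℂ) (p : n × n), (Matrix.stdBasis ℂ n n).repr M p = M p.1 p.2 := by
    intro M p
    rfl
  simp only [Matrix.trace, Matrix.diag_apply, LinearMap.toMatrix_apply, this, LinearMap.comp_apply,
    LinearMap.mulLeft_apply, LinearMap.mulRight_apply]
  rw [Fintype.sum_prod_type, Finset.sum_mul_sum]
  refine Finset.sum_congr rfl fun i _ => Finset.sum_congr rfl fun j _ => ?_
  rw [Matrix.stdBasis_eq_single]
  simp [Matrix.mul_apply, Matrix.single_apply, Finset.sum_ite_eq, ite_and]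

lemma killing_sl (X Y : sl n ℂ) :
    killingForm ℂ (sl n ℂ) X Y = 2 * (Fintype.card n : ℂ) * (X.val * Y.val).trace := by
  have hX : X.val.trace = 0 := X.2
  have hY : Y.val.trace = 0 := Y.2
  set f : Matrix n n ℂ →ₗ[ℂ] Matrix n n ℂ :=
    LinearMap.mulLeft ℂ (X.val * Y.val) ∘ₗ LinearMap.mulRight ℂ 1
      - LinearMap.mulLeft ℂ X.val ∘ₗ LinearMap.mulRight ℂ Y.val
      - LinearMap.mulLeft ℂ Y.val ∘ₗ LinearMap.mulRight ℂ X.val
      + LinearMap.mulLeft ℂ 1 ∘ₗ LinearMap.mulRight ℂ (Y.val * X.val) with hf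
  have hfa : ∀ Z, f Z = ⁅X.val, ⁅Y.val, Z⁆⁆ := by
    intro Z
    simp only [hf, LinearMap.add_apply, LinearMap.sub_apply, LinearMap.comp_apply,
      LinearMap.mulLeft_apply, LinearMap.mulRight_apply, LieRing.of_associative_ring_bracket]
    noncomm_ring
  have hmem : ∀ Z, f Z ∈ (sl n ℂ).toSubmodule := by
    intro Z
    rw [hfa]
    exact matrix_trace_commutator_zero _ _ _ _
  have e : LieAlgebra.ad ℂ (sl n ℂ) X ∘ₗ LieAlgebra.ad ℂ (sl n ℂ) Y
      = f.restrict (fun Z _ => hmem Z) := by
    apply LinearMap.ext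
    intro Z
    apply Subtype.ext
    rw [LinearMap.coe_restrict_apply, hfa]
    rfl
  have e2 := LinearMap.trace_restrict_eq_of_forall_mem (sl n ℂ).toSubmodule f hmem
  rw [killingForm_apply_apply, e]
  refine Eq.trans e2 ?_
  rw [hf]
  simp only [map_add, map_sub, trace_mul_mul, hX, hY, Matrix.trace_one]
  rw [Matrix.trace_mul_comm Y.val X.val]
  ring

lemma killing_nondeg (X : sl n ℂ) (h : ∀ Y, killingForm ℂ (sl n ℂ) X Y = 0) : X = 0 := by
  have hX : X.val.trace = 0 := X.2
  apply Subtype.ext
  ext i j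
  have hn : (Fintype.card n : ℂ) ≠ 0 := by
    have : Nonempty n := ⟨i⟩
    exact_mod_cast Fintype.card_ne_zero
  have h2 : ∀ Y : sl n ℂ, (X.val * Y.val).trace = 0 := by
    intro Y
    have := h Y
    rw [killing_sl] at this
    simpa [hn] using this
  have h3 : ∀ k l, k ≠ l → X.val l k = 0 := by
    intro k l hkl
    have := h2 (single k l hkl 1)
    simpa [Matrix.trace_mul_single] using this
  have h4 : ∀ k l, X.val k k = X.val l l := by
    intro k l
    have := h2 (singleSubSingle k l 1)
    simp [Matrix.mul_sub, Matrix.trace_mul_single] at this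
    linear_combination this
  have h5 : X.val i i = 0 := by
    have : X.val.trace = (Fintype.card n : ℂ) * X.val i i := by
      rw [Matrix.trace]
      simp only [Matrix.diag_apply]
      rw [Finset.sum_congr rfl (fun k _ => h4 k i)]
      simp
    rw [hX] at this
    simpa [hn] using this.symm
  by_cases hij : j = i
  · subst hij
    simpa using h5
  · simpa using h3 j i hij

instance isKilling_sl : LieAlgebra.IsKilling ℂ (sl n ℂ) := by
  constructor
  rw [eq_bot_iff]
  intro X hX
  rw [LieIdeal.mem_killingCompl] at hX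
  have : X = 0 := by
    apply killing_nondeg
    intro Y
    rw [LieModule.traceForm_comm]
    exact hX Y (LieSubmodule.mem_top Y)
  rw [this]
  exact LieSubmodule.zero_mem _

end KillingSL

end Pool.Agent.Work.MP_3d4872_al
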