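import Pool.Agent.Work.MP_3d4872_al.Contains

/-!
# MP_3d4872_al: the frame of `sl (n+1)`
-/

set_option autoImplicit false
set_option linter.unusedSectionVars false

namespace Pool.Agent.Work.MP_3d4872_al

open Matrix LieAlgebra LieAlgebra.SpecialLinear

attribute [local instance 100] LieRing.ofAssociativeRing

variable {ι : Type*} [Fintype ι] [DecidableEq ι]

lemma nilpotent_trace {x₀ : Matrix ι ι ℂ} (h : IsNilpotent x₀) : x₀.trace = 0 :=
  (Matrix.isNilpotent_trace_of_isNilpotent h).eq_zero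

lemma nilpotent_sq_trace {x₀ : Matrix ι ι ℂ} (h : IsNilpotent x₀) : (x₀ * x₀).trace = 0 :=
  nilpotent_trace ((Commute.refl x₀).isNilpotent_mul_right h)

lemma nilpotent_mul_trace {x₀ y₀ : Matrix ι ι ℂ} (h : IsNilpotent x₀)
    (hc : x₀ * y₀ = y₀ * x₀) : (x₀ * y₀).trace = 0 := by
  have hc' : Commute x₀ y₀ := hc
  exact nilpotent_trace (hc'.isNilpotent_mul_right h)

/-- The frame of `sl (n+1)`. -/
noncomputable def frameA (ι : Type*) [Fintype ι] [DecidableEq ι] [Nonempty ι] :
    Frame (sl (ι ⊕ Unit) ℂ) ι where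
  bx := bigX
  ey := emb
  col := colv
  row := rowv
  colp := colp
  rowp := rowp
  c := 1
  c_ne := one_ne_zero
  colp_col := colp_colv
  rowp_row := rowp_rowv
  bx_col x₀ hx v := by
    rw [lie_bigX_colv (nilpotent_trace hx), map_add, one_smul]
  bx_row x₀ hx v := by
    rw [lie_bigX_rowv (nilpotent_trace hx), map_neg, map_add, one_smul]
  ey_col y₀ hy v := by
    rw [lie_colv, nilpotent_trace hy, zero_smul, add_zero]
  ey_row y₀ hy v := by
    rw [lie_rowv, nilpotent_trace hy, zero_smul, add_zero, map_neg]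
  gen_col x₀ hx K w h := by
    have h1 := gen_eigen hx 1 K w (by simpa using h)
    exact eq_colv w h1.1 (h1.2.2 (by norm_num))
  gen_row x₀ hx K w h := by
    have h1 := gen_eigen hx (-1) K w (by simpa using h)
    exact eq_rowv w h1.1 (h1.2.1 (by norm_num))
  comm x₀ y₀ h := by
    rw [bigX, lie_emb, add_mul, mul_add, h]
    simp
  kill_xy x₀ y₀ hx hy h := by
    rw [killing_sl, bigX, trace_emb_mul, nilpotent_trace hy, add_mul, Matrix.trace_add,
      nilpotent_mul_trace hx h]
    simp [nilpotent_trace hy]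
  kxx := 2 * (Fintype.card (ι ⊕ Unit) : ℂ) *
    (((Fintype.card ι : ℂ) + 1)⁻¹ * (Fintype.card ι : ℂ))
  kxx_ne := by
    have h1 : (Fintype.card ι : ℂ) ≠ 0 := by exact_mod_cast Fintype.card_ne_zero
    have h2 : (Fintype.card (ι ⊕ Unit) : ℂ) ≠ 0 := by exact_mod_cast Fintype.card_ne_zero
    have h3 : ((Fintype.card ι : ℂ) + 1)⁻¹ ≠ 0 := inv_ne_zero (Nat.cast_add_one_ne_zero _)
    exact mul_ne_zero (mul_ne_zero two_ne_zero h2) (mul_ne_zero h3 h1)
  kill_xx x₀ hx := by
    rw [killing_sl, bigX, trace_emb_mul]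
    congr 1
    simp only [add_mul, mul_add, Matrix.trace_add, nilpotent_trace hx, nilpotent_sq_trace hx,
      Matrix.smul_mul, Matrix.mul_smul, Matrix.trace_smul, Matrix.one_mul, Matrix.mul_one,
      Matrix.trace_one, smul_eq_mul, mul_zero, zero_add]
    have h : ((Fintype.card ι : ℂ) + 1) ≠ 0 := Nat.cast_add_one_ne_zero _
    field_simp
    ring
  conj Q Q' h h' := by
    have hG : bordered Q 0 0 1 * bordered Q' 0 0 1 = 1 := by
      rw [bordered_mul, h, mul_one, bordered_one]
    have hH : bordered Q' 0 0 1 * bordered Q 0 0 1 = 1 := by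
      rw [bordered_mul, h', mul_one, bordered_one]
    refine ⟨conjSl (bordered Q 0 0 1) (bordered Q' 0 0 1) hG hH, fun x₀ => ?_, fun y₀ => ?_⟩
    · rw [bigX, conj_emb Q Q' _ h h', bigX]
      congr 1
      rw [mul_add, add_mul]
      congr 1
      rw [Matrix.mul_smul, Matrix.mul_one, Matrix.smul_mul, h]
    · rw [conj_emb Q Q' _ h h']

end Pool.Agent.Work.MP_3d4872_al
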