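import Pool.Agent.Work.MP_3d4872_al.Skew
import Pool.Agent.Work.MP_3d4872_al.TypeA

/-!
# MP_3d4872_al: the frame of the orthogonal and symplectic Lie algebras
-/

set_option autoImplicit false
set_option linter.unusedSectionVars false

namespace Pool.Agent.Work.MP_3d4872_al

open Matrix LieAlgebra

attribute [local instance 100] LieRing.ofAssociativeRing

section BorderedMul

variable {ι : Type*} [Fintype ι] [DecidableEq ι]

lemma bordered_mul_col (M : Matrix ι ι ℂ) (d : ℂ) (v : ι → ℂ) :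
    bordered M 0 0 d * bordered 0 v 0 0 = bordered 0 (M *ᵥ v) 0 0 := by
  ext (i | i) (j | j) <;>
    simp [Matrix.mul_apply, Fintype.sum_sum_type, Matrix.mulVec, dotProduct]

lemma bordered_col_mul (M : Matrix ι ι ℂ) (d : ℂ) (v : ι → ℂ) :
    bordered 0 v 0 0 * bordered M 0 0 d = bordered 0 (d • v) 0 0 := by
  ext (i | i) (j | j) <;>
    simp [Matrix.mul_apply, Fintype.sum_sum_type, mul_comm]

lemma bordered_mul_row (M : Matrix ι ι ℂ) (d : ℂ) (v : ι → ℂ) :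
    bordered M 0 0 d * bordered 0 0 v 0 = bordered 0 0 (d • v) 0 := by
  ext (i | i) (j | j) <;>
    simp [Matrix.mul_apply, Fintype.sum_sum_type]

lemma bordered_row_mul (M : Matrix ι ι ℂ) (d : ℂ) (v : ι → ℂ) :
    bordered 0 0 v 0 * bordered M 0 0 d = bordered 0 0 (Mᵀ *ᵥ v) 0 := by
  ext (i | i) (j | j) <;>
    simp [Matrix.mul_apply, Fintype.sum_sum_type, Matrix.mulVec, dotProduct, mul_comm]

lemma bordered_pow (M : Matrix ι ι ℂ) (d : ℂ) (k : ℕ) :
    (bordered M 0 0 d) ^ k = bordered (M ^ k) 0 0 (d ^ k) := by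
  induction k with
  | zero => rw [pow_zero, pow_zero, pow_zero, bordered_one]
  | succ k ih => rw [pow_succ, pow_succ, pow_succ, ih, bordered_mul]

lemma bordered_zero : (bordered 0 0 0 0 : Matrix (ι ⊕ Unit) (ι ⊕ Unit) ℂ) = 0 := by
  ext (i | i) (j | j) <;> simp

lemma bordered_add (M M' : Matrix ι ι ℂ) (b b' c c' : ι → ℂ) (d d' : ℂ) :
    bordered M b c d + bordered M' b' c' d' = bordered (M + M') (b + b') (c + c') (d + d') := by
  ext (i | i) (j | j) <;> simp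

lemma bordered_sub (M M' : Matrix ι ι ℂ) (b b' c c' : ι → ℂ) (d d' : ℂ) :
    bordered M b c d - bordered M' b' c' d' = bordered (M - M') (b - b') (c - c') (d - d') := by
  ext (i | i) (j | j) <;> simp

lemma bordered_smul (t : ℂ) (M : Matrix ι ι ℂ) (b c : ι → ℂ) (d : ℂ) :
    t • bordered M b c d = bordered (t • M) (t • b) (t • c) (t • d) := by
  ext (i | i) (j | j) <;> simp

end BorderedMul

section Form

variable {κ l : Type*} [Fintype κ] [DecidableEq κ] [Fintype l] [DecidableEq l]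

/-- The form `G ⊕ (hyperbolic)`. -/
def bigJ (l : Type*) [Fintype l] [DecidableEq l] (G : Matrix κ κ ℂ) (ε : ℂ) :
    Matrix (κ ⊕ (l ⊕ l)) (κ ⊕ (l ⊕ l)) ℂ :=
  fromBlocks G 0 0 (fromBlocks 0 (ε • (1 : Matrix l l ℂ)) 1 0)

/-- The inverse of the form. -/
def bigJ' (l : Type*) [Fintype l] [DecidableEq l] (G' : Matrix κ κ ℂ) (ε : ℂ) :
    Matrix (κ ⊕ (l ⊕ l)) (κ ⊕ (l ⊕ l)) ℂ :=
  fromBlocks G' 0 0 (fromBlocks 0 1 (ε • (1 : Matrix l l ℂ)) 0)

lemma bigJ_mul {G G' : Matrix κ κ ℂ} {ε : ℂ} (hG : G * G' = 1) (hε : ε * ε = 1) :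
    bigJ l G ε * bigJ' l G' ε = 1 := by
  rw [bigJ, bigJ', fromBlocks_multiply, fromBlocks_multiply]
  simp [hG, smul_smul, hε]

lemma bigJ'_mul {G G' : Matrix κ κ ℂ} {ε : ℂ} (hG : G' * G = 1) (hε : ε * ε = 1) :
    bigJ' l G' ε * bigJ l G ε = 1 := by
  rw [bigJ, bigJ', fromBlocks_multiply, fromBlocks_multiply]
  simp [hG, smul_smul, hε]

lemma bigJ_transpose {G : Matrix κ κ ℂ} {ε : ℂ} (hG : Gᵀ = ε • G) (hε : ε * ε = 1) :
    (bigJ l G ε)ᵀ = ε • bigJ l G ε := by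
  rw [bigJ, fromBlocks_transpose, fromBlocks_transpose, fromBlocks_smul, fromBlocks_smul]
  simp [hG, smul_smul, hε]

/-- The matrix `0 ⊕ P ⊕ (-Pᵀ)`. -/
def m2 (κ : Type*) [Fintype κ] [DecidableEq κ] {l : Type*} [Fintype l] [DecidableEq l]
    (P : Matrix l l ℂ) : Matrix (κ ⊕ (l ⊕ l)) (κ ⊕ (l ⊕ l)) ℂ :=
  fromBlocks 0 0 0 (fromBlocks P 0 0 (-Pᵀ))

lemma m2_mem (G : Matrix κ κ ℂ) (ε : ℂ) (P : Matrix l l ℂ) :
    m2 κ P ∈ skewAdjointMatricesLieSubalgebra (bigJ l G ε) := by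
  rw [mem_skew, m2, bigJ, fromBlocks_transpose, fromBlocks_transpose, fromBlocks_multiply,
    fromBlocks_multiply, fromBlocks_multiply, fromBlocks_multiply]
  simp [fromBlocks_neg]

lemma m2_mul (P P' : Matrix l l ℂ) :
    m2 κ P * m2 κ P' = fromBlocks 0 0 0 (fromBlocks (P * P') 0 0 ((P' * P)ᵀ)) := by
  rw [m2, m2, fromBlocks_multiply, fromBlocks_multiply]
  simp [Matrix.transpose_mul]

lemma trace_m2_mul (P P' : Matrix l l ℂ) : (m2 κ P * m2 κ P').trace = 2 * (P * P').trace := by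
  rw [m2_mul]
  simp only [Matrix.trace, Matrix.diag_apply, Fintype.sum_sum_type, fromBlocks_apply₁₁,
    fromBlocks_apply₂₂, Matrix.zero_apply, Finset.sum_const_zero, zero_add, Matrix.transpose_apply]
  have h : ∑ i, (P' * P) i i = ∑ i, (P * P') i i := Matrix.trace_mul_comm P' P
  rw [h]
  ring

lemma m2_add (P P' : Matrix l l ℂ) : m2 κ (P + P') = m2 κ P + m2 κ P' := by
  rw [m2, m2, m2, fromBlocks_add, fromBlocks_add]
  simp [add_comm]

lemma m2_smul (c : ℂ) (P : Matrix l l ℂ) : m2 κ (c • P) = c • m2 κ P := by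
  rw [m2, m2, fromBlocks_smul, fromBlocks_smul]
  simp

lemma m2_lie (P P' : Matrix l l ℂ) :
    m2 κ P * m2 κ P' - m2 κ P' * m2 κ P = m2 κ (P * P' - P' * P) := by
  rw [m2_mul, m2_mul, m2, sub_eq_add_neg, fromBlocks_neg, fromBlocks_neg, fromBlocks_add,
    fromBlocks_add]
  simp [sub_eq_add_neg, add_comm]

lemma m2_nilpotent {P : Matrix l l ℂ} (h : IsNilpotent P) : IsNilpotent (m2 κ P) := by
  obtain ⟨k, hk⟩ := h
  refine ⟨k + 1, ?_⟩
  rw [m2, fromBlocks_diagonal_pow, fromBlocks_diagonal_pow, pow_succ P, hk, zero_mul, neg_pow,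
    ← Matrix.transpose_pow, pow_succ P, hk, zero_mul, pow_succ (0 : Matrix κ κ ℂ), mul_zero]
  simp

/-- The map `P ↦ 0 ⊕ P ⊕ (-Pᵀ)` into the Lie algebra of the form. -/
def emb2 (G : Matrix κ κ ℂ) (ε : ℂ) :
    Matrix l l ℂ →ₗ[ℂ] skewAdjointMatricesLieSubalgebra (bigJ l G ε) where
  toFun P := ⟨m2 κ P, m2_mem G ε P⟩
  map_add' P P' := Subtype.ext (m2_add P P')
  map_smul' c P := Subtype.ext (m2_smul c P)

lemma emb2_lie (G : Matrix κ κ ℂ) (ε : ℂ) (P P' : Matrix l l ℂ) :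
    ⁅emb2 G ε P, emb2 G ε P'⁆ = emb2 G ε (P * P' - P' * P) :=
  Subtype.ext (m2_lie P P')

lemma emb2_val (G : Matrix κ κ ℂ) (ε : ℂ) (P : Matrix l l ℂ) : (emb2 G ε P).val = m2 κ P := rfl

lemma skew_entry {G : Matrix κ κ ℂ} {ε : ℂ} (hε : ε * ε = 1)
    (w : skewAdjointMatricesLieSubalgebra (bigJ l G ε)) (p q : l) :
    w.val (Sum.inr (Sum.inr p)) (Sum.inr (Sum.inr q))
      = -w.val (Sum.inr (Sum.inl q)) (Sum.inr (Sum.inl p)) := by
  have h := (mem_skew _ _).1 w.2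
  have h1 := congrFun (congrFun h (Sum.inr (Sum.inl p))) (Sum.inr (Sum.inr q))
  rw [Matrix.neg_apply, Matrix.mul_apply, Matrix.mul_apply] at h1
  simp only [bigJ, Fintype.sum_sum_type, fromBlocks_apply₁₁, fromBlocks_apply₁₂,
    fromBlocks_apply₂₁, fromBlocks_apply₂₂, Matrix.transpose_apply, Matrix.zero_apply, mul_zero,
    zero_mul, Finset.sum_const_zero, zero_add, add_zero, Matrix.smul_apply, Matrix.one_apply,
    smul_eq_mul, mul_ite, ite_mul, mul_one] at h1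
  simp only [Finset.sum_ite_eq, Finset.sum_ite_eq', Finset.mem_univ, if_true] at h1
  have hε0 : ε ≠ 0 := by
    rintro rfl
    simp at hε
  apply mul_left_cancel₀ hε0
  linear_combination h1

lemma iso_form (G : Matrix κ κ ℂ) (ε : ℂ) (Q Q' : Matrix l l ℂ) :
    (fromBlocks (1 : Matrix κ κ ℂ) 0 0 (fromBlocks Q 0 0 Q'ᵀ))ᵀ * bigJ l G ε
      = bigJ l G ε * fromBlocks (1 : Matrix κ κ ℂ) 0 0 (fromBlocks Q' 0 0 Qᵀ) := by
  rw [bigJ, fromBlocks_transpose, fromBlocks_transpose, fromBlocks_multiply, fromBlocks_multiply,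
    fromBlocks_multiply, fromBlocks_multiply]
  simp

lemma iso_inv (Q Q' : Matrix l l ℂ) (h : Q * Q' = 1) (h' : Q' * Q = 1) :
    fromBlocks (1 : Matrix κ κ ℂ) 0 0 (fromBlocks Q 0 0 Q'ᵀ)
      * fromBlocks (1 : Matrix κ κ ℂ) 0 0 (fromBlocks Q' 0 0 Qᵀ) = 1 := by
  rw [fromBlocks_multiply, fromBlocks_multiply]
  simp [h, h', ← Matrix.transpose_mul]

lemma iso_conj (Q Q' P : Matrix l l ℂ) :
    fromBlocks (1 : Matrix κ κ ℂ) 0 0 (fromBlocks Q 0 0 Q'ᵀ) * m2 κ P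
      * fromBlocks (1 : Matrix κ κ ℂ) 0 0 (fromBlocks Q' 0 0 Qᵀ) = m2 κ (Q * P * Q') := by
  rw [m2, m2]
  simp [fromBlocks_multiply, Matrix.transpose_mul, mul_assoc]

end Form

section FrameBCD

variable {κ ι : Type*} [Fintype κ] [DecidableEq κ] [Fintype ι] [DecidableEq ι]

/-- The weights of the standard representation. -/
def wt (κ ι : Type*) : κ ⊕ ((ι ⊕ Unit) ⊕ (ι ⊕ Unit)) → ℂ :=
  Sum.elim (fun _ => 0) (Sum.elim (Sum.elim (fun _ => 1) (fun _ => 5))
    (Sum.elim (fun _ => -1) (fun _ => -5)))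

/-- The upper left block of the element `x`. -/
def hatX (x₀ : Matrix ι ι ℂ) : Matrix (ι ⊕ Unit) (ι ⊕ Unit) ℂ := bordered (x₀ + 1) 0 0 5

lemma m2_hatX (x₀ : Matrix ι ι ℂ) :
    m2 κ (hatX x₀) = Matrix.diagonal (wt κ ι) + m2 κ (bordered x₀ 0 0 0) := by
  ext (i | ((i | i) | (i | i))) (j | ((j | j) | (j | j))) <;>
    simp [m2, hatX, wt, Matrix.one_apply, Matrix.diagonal_apply, eq_comm] <;>
    (try split_ifs) <;> (try simp) <;> (try ring)

/-- The upper left block of the element `y`. -/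
def hatY : Matrix ι ι ℂ →ₗ[ℂ] Matrix (ι ⊕ Unit) (ι ⊕ Unit) ℂ where
  toFun y₀ := bordered y₀ 0 0 0
  map_add' y y' := by rw [bordered_add]; simp
  map_smul' c y := by rw [RingHom.id_apply, bordered_smul]; simp

/-- The last column. -/
def hatC : (ι → ℂ) →ₗ[ℂ] Matrix (ι ⊕ Unit) (ι ⊕ Unit) ℂ where
  toFun v := bordered 0 v 0 0
  map_add' y y' := by rw [bordered_add]; simp
  map_smul' c y := by rw [RingHom.id_apply, bordered_smul]; simp

/-- The last row. -/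
def hatR : (ι → ℂ) →ₗ[ℂ] Matrix (ι ⊕ Unit) (ι ⊕ Unit) ℂ where
  toFun v := bordered 0 0 v 0
  map_add' y y' := by rw [bordered_add]; simp
  map_smul' c y := by rw [RingHom.id_apply, bordered_smul]; simp

lemma hatY_apply (y : Matrix ι ι ℂ) : hatY y = bordered y 0 0 0 := rfl
lemma hatC_apply (v : ι → ℂ) : hatC v = bordered 0 v 0 0 := rfl
lemma hatR_apply (v : ι → ℂ) : hatR v = bordered 0 0 v 0 := rfl

lemma wt_nil (x₀ : Matrix ι ι ℂ) (i j : κ ⊕ ((ι ⊕ Unit) ⊕ (ι ⊕ Unit)))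
    (h : wt κ ι i ≠ wt κ ι j) : m2 κ (bordered x₀ 0 0 0) i j = 0 := by
  rcases i with (i | ((i | i) | (i | i))) <;> rcases j with (j | ((j | j) | (j | j))) <;>
    first
      | rfl
      | (exfalso; exact h rfl)
      | simp [m2]

lemma gen_entries (G : Matrix κ κ ℂ) (ε : ℂ) {x₀ : Matrix ι ι ℂ} (hx : IsNilpotent x₀)
    (s c : ℂ) (K : ℕ) (w : skewAdjointMatricesLieSubalgebra (bigJ (ι ⊕ Unit) G ε))
    (h : ((s • LieAlgebra.ad ℂ _ (emb2 G ε (hatX x₀)) - c • 1 :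
      Module.End ℂ (skewAdjointMatricesLieSubalgebra (bigJ (ι ⊕ Unit) G ε))) ^ K) w = 0)
    (i j : κ ⊕ ((ι ⊕ Unit) ⊕ (ι ⊕ Unit))) (hij : s * (wt κ ι i - wt κ ι j) ≠ c) :
    w.val i j = 0 := by
  have hN : IsNilpotent (m2 κ (bordered x₀ 0 0 0) :
      Matrix (κ ⊕ ((ι ⊕ Unit) ⊕ (ι ⊕ Unit))) (κ ⊕ ((ι ⊕ Unit) ⊕ (ι ⊕ Unit))) ℂ) := by
    apply m2_nilpotent
    obtain ⟨k, hk⟩ := hx
    refine ⟨k + 1, ?_⟩
    rw [bordered_pow, pow_succ, hk, zero_mul, pow_succ, mul_zero, bordered_zero]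
  refine entry_eq_zero (wt κ ι) (m2 κ (bordered x₀ 0 0 0)) hN (wt_nil x₀) s c K w.val ?_ i j hij
  set A : Module.End ℂ (skewAdjointMatricesLieSubalgebra (bigJ (ι ⊕ Unit) G ε)) :=
    s • LieAlgebra.ad ℂ _ (emb2 G ε (hatX x₀)) - c • 1 with hA
  have e1 : ∀ u, (skewAdjointMatricesLieSubalgebra (bigJ (ι ⊕ Unit) G ε)).toSubmodule.subtype
      (A u) = (s • (LinearMap.mulLeft ℂ (Matrix.diagonal (wt κ ι) + m2 κ (bordered x₀ 0 0 0))
      - LinearMap.mulRight ℂ (Matrix.diagonal (wt κ ι) + m2 κ (bordered x₀ 0 0 0))) - c • 1 :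
        Module.End ℂ (Matrix (κ ⊕ ((ι ⊕ Unit) ⊕ (ι ⊕ Unit)))
          (κ ⊕ ((ι ⊕ Unit) ⊕ (ι ⊕ Unit))) ℂ))
      ((skewAdjointMatricesLieSubalgebra (bigJ (ι ⊕ Unit) G ε)).toSubmodule.subtype u) := by
    intro u
    rw [← m2_hatX]
    rfl
  have e2 := pow_intertwine
    (skewAdjointMatricesLieSubalgebra (bigJ (ι ⊕ Unit) G ε)).toSubmodule.subtype A _ e1 K w
  rw [h, map_zero] at e2
  exact e2.symm

/-- The entries of the last column of the upper left block. -/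
def colp2 (G : Matrix κ κ ℂ) (ε : ℂ) :
    skewAdjointMatricesLieSubalgebra (bigJ (ι ⊕ Unit) G ε) →ₗ[ℂ] (ι → ℂ) where
  toFun w := fun i => w.val (Sum.inr (Sum.inl (Sum.inl i))) (Sum.inr (Sum.inl (Sum.inr ())))
  map_add' _ _ := rfl
  map_smul' _ _ := rfl

/-- The entries of the last row of the upper left block. -/
def rowp2 (G : Matrix κ κ ℂ) (ε : ℂ) :
    skewAdjointMatricesLieSubalgebra (bigJ (ι ⊕ Unit) G ε) →ₗ[ℂ] (ι → ℂ) where
  toFun w := fun i => w.val (Sum.inr (Sum.inl (Sum.inr ()))) (Sum.inr (Sum.inl (Sum.inl i)))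
  map_add' _ _ := rfl
  map_smul' _ _ := rfl

lemma eq_col2 {G : Matrix κ κ ℂ} {ε : ℂ} (hε : ε * ε = 1)
    (w : skewAdjointMatricesLieSubalgebra (bigJ (ι ⊕ Unit) G ε))
    (h : ∀ i j, wt κ ι i - wt κ ι j ≠ -4 → w.val i j = 0) :
    w = emb2 G ε (hatC (colp2 G ε w)) := by
  apply Subtype.ext
  ext i j
  by_cases hij : wt κ ι i - wt κ ι j = -4
  · rcases i with (i | ((i | i) | (i | i))) <;> rcases j with (j | ((j | j) | (j | j)))
    all_goals first
      | rfl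
      | (exfalso; revert hij; norm_num [wt]; done)
      | skip
    · rw [skew_entry hε]
      rfl
  · rw [h i j hij]
    rcases i with (i | ((i | i) | (i | i))) <;> rcases j with (j | ((j | j) | (j | j)))
    all_goals first
      | rfl
      | (exfalso; revert hij; norm_num [wt]; done)
      | (rw [emb2_val, hatC_apply]; simp [m2])

lemma eq_row2 {G : Matrix κ κ ℂ} {ε : ℂ} (hε : ε * ε = 1)
    (w : skewAdjointMatricesLieSubalgebra (bigJ (ι ⊕ Unit) G ε))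
    (h : ∀ i j, wt κ ι i - wt κ ι j ≠ 4 → w.val i j = 0) :
    w = emb2 G ε (hatR (rowp2 G ε w)) := by
  apply Subtype.ext
  ext i j
  by_cases hij : wt κ ι i - wt κ ι j = 4
  · rcases i with (i | ((i | i) | (i | i))) <;> rcases j with (j | ((j | j) | (j | j)))
    all_goals first
      | rfl
      | (exfalso; revert hij; norm_num [wt]; done)
      | skip
    · rw [skew_entry hε]
      rfl
  · rw [h i j hij]
    rcases i with (i | ((i | i) | (i | i))) <;> rcases j with (j | ((j | j) | (j | j)))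
    all_goals first
      | rfl
      | (exfalso; revert hij; norm_num [wt]; done)
      | (rw [emb2_val, hatR_apply]; simp [m2])

lemma killing_emb2 {G G' : Matrix κ κ ℂ} {ε : ℂ} (hG : G * G' = 1) (hG' : G' * G = 1)
    (hGs : Gᵀ = ε • G) (hε : ε * ε = 1) (P P' : Matrix (ι ⊕ Unit) (ι ⊕ Unit) ℂ) :
    killingForm ℂ (skewAdjointMatricesLieSubalgebra (bigJ (ι ⊕ Unit) G ε)) (emb2 G ε P)
      (emb2 G ε P') = ((Fintype.card (κ ⊕ ((ι ⊕ Unit) ⊕ (ι ⊕ Unit))) : ℂ) - 2 * ε)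
        * (2 * (P * P').trace) := by
  rw [killing_skew (bigJ_mul hG hε) (bigJ'_mul hG' hε) hε (bigJ_transpose hGs hε), emb2_val,
    emb2_val, trace_m2_mul]

/-- The frame of the Lie algebra of the form `G ⊕ (hyperbolic)`. -/
noncomputable def frameBCD (ι : Type*) [Fintype ι] [DecidableEq ι] [Nonempty ι]
    {G G' : Matrix κ κ ℂ} {ε : ℂ} (hG : G * G' = 1) (hG' : G' * G = 1)
    (hGs : Gᵀ = ε • G) (hε : ε * ε = 1) :
    Frame (skewAdjointMatricesLieSubalgebra (bigJ (ι ⊕ Unit) G ε)) ι where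
  bx x₀ := emb2 G ε (hatX x₀)
  ey := emb2 G ε ∘ₗ hatY
  col := emb2 G ε ∘ₗ hatC
  row := emb2 G ε ∘ₗ hatR
  colp := colp2 G ε
  rowp := rowp2 G ε
  c := -4
  c_ne := by norm_num
  colp_col _ := rfl
  rowp_row _ := rfl
  bx_col x₀ hx v := by
    change ⁅emb2 G ε (hatX x₀), emb2 G ε (hatC v)⁆
      = emb2 G ε (hatC (x₀ *ᵥ v)) + (-4 : ℂ) • emb2 G ε (hatC v)
    rw [emb2_lie, ← map_smul, ← map_add, ← map_smul, ← map_add]
    congr 1
    rw [hatX, hatC_apply, hatC_apply, bordered_mul_col, bordered_col_mul, bordered_sub,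
      Matrix.add_mulVec, Matrix.one_mulVec]
    congr 1
    · simp
    · module
    · simp
    · simp
  bx_row x₀ hx v := by
    change ⁅emb2 G ε (hatX x₀), emb2 G ε (hatR v)⁆
      = -(emb2 G ε (hatR (x₀ᵀ *ᵥ v)) + (-4 : ℂ) • emb2 G ε (hatR v))
    rw [emb2_lie, ← map_smul, ← map_add, ← map_smul, ← map_add, ← map_neg, ← map_neg]
    congr 1
    rw [hatX, hatR_apply, hatR_apply, bordered_mul_row, bordered_row_mul, bordered_sub,
      Matrix.transpose_add, Matrix.transpose_one, Matrix.add_mulVec, Matrix.one_mulVec]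
    congr 1
    · simp
    · simp
    · module
    · simp
  ey_col y₀ hy v := by
    change ⁅emb2 G ε (hatY y₀), emb2 G ε (hatC v)⁆ = emb2 G ε (hatC (y₀ *ᵥ v))
    rw [emb2_lie, hatY_apply, hatC_apply, hatC_apply, bordered_mul_col, bordered_col_mul,
      bordered_sub]
    congr 2 <;> simp
  ey_row y₀ hy v := by
    change ⁅emb2 G ε (hatY y₀), emb2 G ε (hatR v)⁆ = -emb2 G ε (hatR (y₀ᵀ *ᵥ v))
    rw [emb2_lie, ← map_neg, ← map_neg, hatY_apply, hatR_apply, hatR_apply, bordered_mul_row,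
      bordered_row_mul, bordered_sub]
    congr 2 <;> simp
  gen_col x₀ hx K w h := by
    refine eq_col2 hε w fun i j hij => ?_
    refine gen_entries G ε hx 1 (-4) K w ?_ i j (by rwa [one_mul])
    rw [one_smul]
    exact h
  gen_row x₀ hx K w h := by
    refine eq_row2 hε w fun i j hij => ?_
    refine gen_entries G ε hx (-1) (-4) K w ?_ i j (fun e => hij (by linear_combination -e))
    rw [neg_smul, one_smul]
    exact h
  comm x₀ y₀ h := by
    change ⁅emb2 G ε (hatX x₀), emb2 G ε (hatY y₀)⁆ = 0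
    rw [emb2_lie, hatX, hatY_apply, bordered_mul, bordered_mul, bordered_sub, add_mul, mul_add, h]
    simp [bordered_zero]
  kill_xy x₀ y₀ hx hy h := by
    change killingForm ℂ _ (emb2 G ε (hatX x₀)) (emb2 G ε (hatY y₀)) = 0
    rw [killing_emb2 hG hG' hGs hε, hatX, hatY_apply, bordered_mul, trace_bordered, add_mul,
      Matrix.trace_add, nilpotent_mul_trace hx h, one_mul, nilpotent_trace hy]
    simp
  kxx := ((Fintype.card (κ ⊕ ((ι ⊕ Unit) ⊕ (ι ⊕ Unit))) : ℂ) - 2 * ε)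
        * (2 * ((Fintype.card ι : ℂ) + 25))
  kxx_ne := by
    have h1 : ((Fintype.card ι : ℂ) + 25) ≠ 0 := by
      have : ((Fintype.card ι + 25 : ℕ) : ℂ) ≠ 0 := by
        exact_mod_cast (by omega : Fintype.card ι + 25 ≠ 0)
      simpa using this
    refine mul_ne_zero ?_ (mul_ne_zero two_ne_zero h1)
    intro h
    have hpos : 1 ≤ Fintype.card ι := Fintype.card_pos
    have hc : 4 ≤ Fintype.card (κ ⊕ ((ι ⊕ Unit) ⊕ (ι ⊕ Unit))) := by
      simp only [Fintype.card_sum, Fintype.card_unit]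
      omega
    have h4 : ((Fintype.card (κ ⊕ ((ι ⊕ Unit) ⊕ (ι ⊕ Unit))) : ℂ)) ^ 2 = 4 := by
      linear_combination (((Fintype.card (κ ⊕ ((ι ⊕ Unit) ⊕ (ι ⊕ Unit))) : ℂ)) + 2 * ε) * h
        + 4 * hε
    have h5 : (Fintype.card (κ ⊕ ((ι ⊕ Unit) ⊕ (ι ⊕ Unit)))) ^ 2 = 4 := by exact_mod_cast h4
    nlinarith
  kill_xx x₀ hx := by
    rw [killing_emb2 hG hG' hGs hε, hatX, bordered_mul, trace_bordered]
    congr 2
    simp only [add_mul, mul_add, Matrix.trace_add, nilpotent_trace hx, nilpotent_sq_trace hx,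
      Matrix.one_mul, Matrix.mul_one, Matrix.trace_one]
    ring
  conj Q Q' h h' := by
    set P := bordered Q 0 0 1 with hP
    set P' := bordered Q' 0 0 1 with hP'
    have hPP : P * P' = 1 := by rw [bordered_mul, h, mul_one, bordered_one]
    have hPP' : P' * P = 1 := by rw [bordered_mul, h', mul_one, bordered_one]
    refine ⟨conjSkew (fromBlocks (1 : Matrix κ κ ℂ) 0 0 (fromBlocks P 0 0 P'ᵀ))
      (fromBlocks (1 : Matrix κ κ ℂ) 0 0 (fromBlocks P' 0 0 Pᵀ)) (iso_inv P P' hPP hPP')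
      (iso_inv P' P hPP' hPP) (iso_form G ε P P') (iso_form G ε P' P), fun x₀ => ?_, fun y₀ => ?_⟩
    · apply Subtype.ext
      rw [conjSkew_apply, emb2_val, emb2_val, iso_conj, hatX, hatX, bordered_mul, bordered_mul,
        one_mul, mul_one, mul_add, add_mul, mul_one, h]
    · apply Subtype.ext
      change _ * (emb2 G ε (hatY y₀)).val * _ = (emb2 G ε (hatY (Q * y₀ * Q'))).val
      rw [emb2_val, emb2_val, iso_conj, hatY_apply, hatY_apply, bordered_mul, bordered_mul,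
        one_mul, mul_one]

end FrameBCD

end Pool.Agent.Work.MP_3d4872_al
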