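import Pool.Agent.Work.MP_3d4872_al.SlKilling

/-!
# MP_3d4872_al: recovering commuting nilpotent pairs from the Lie algebra `sl (n+1)`
-/

set_option autoImplicit false

namespace Pool.Agent.Work.MP_3d4872_al

open Matrix LieAlgebra LieAlgebra.SpecialLinear

attribute [local instance 100] LieRing.ofAssociativeRing

section Transfer

variable {E F : Type*} [AddCommGroup E] [Module ℂ E] [AddCommGroup F] [Module ℂ F]

lemma pow_intertwine (P : E →ₗ[ℂ] F) (A : Module.End ℂ E) (B : Module.End ℂ F)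
    (h : ∀ w, P (A w) = B (P w)) (K : ℕ) (w : E) : P ((A ^ K) w) = (B ^ K) (P w) := by
  induction K with
  | zero => simp
  | succ k ih =>
    rw [pow_succ', pow_succ', Module.End.mul_apply, Module.End.mul_apply, h, ih]

lemma transfer (P : E →ₗ[ℂ] F) (A : Module.End ℂ E) (B : Module.End ℂ F)
    (h : ∀ w, P (A w) = B (P w)) (hB : IsUnit B) (K : ℕ) (w : E) (hw : (A ^ K) w = 0) :
    P w = 0 := by
  have h1 : (B ^ K) (P w) = 0 := by rw [← pow_intertwine P A B h, hw, map_zero]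
  obtain ⟨u, hu⟩ := hB.pow K
  have h2 : (↑u⁻¹ * ↑u : Module.End ℂ F) (P w) = 0 := by
    rw [Module.End.mul_apply, hu, h1, map_zero]
  simpa using h2

/-- `a + b N` is invertible for a nilpotent `N` and a nonzero scalar `a`. -/
lemma isUnit_of_nilpotent (a b : ℂ) (ha : a ≠ 0) (N : Module.End ℂ F) (hN : IsNilpotent N) :
    IsUnit (a • (1 : Module.End ℂ F) + b • N) := by
  have hu : IsUnit (a • (1 : Module.End ℂ F)) := by
    refine ⟨⟨a • 1, a⁻¹ • 1, ?_, ?_⟩, rfl⟩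
    · rw [smul_mul_smul_comm, mul_inv_cancel₀ ha, one_smul, one_mul]
    · rw [smul_mul_smul_comm, inv_mul_cancel₀ ha, one_smul, one_mul]
  refine IsNilpotent.isUnit_add_left_of_commute (hN.smul b) hu ?_
  exact ((Commute.one_right N).smul_left b).smul_right a

end Transfer

section Weights

set_option linter.unusedSectionVars false

variable {ι : Type*} [Fintype ι] [DecidableEq ι]

/-- The matrix with blocks `A`, `b` (column), `c` (row), `d` (number). -/
def bordered (A : Matrix ι ι ℂ) (b c : ι → ℂ) (d : ℂ) : Matrix (ι ⊕ Unit) (ι ⊕ Unit) ℂ :=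
  Matrix.of (Sum.elim (fun i => Sum.elim (A i) (fun _ => b i)) (fun _ => Sum.elim c (fun _ => d)))

@[simp] lemma bordered_11 (A : Matrix ι ι ℂ) (b c : ι → ℂ) (d : ℂ) (i j : ι) :
    bordered A b c d (Sum.inl i) (Sum.inl j) = A i j := rfl

@[simp] lemma bordered_12 (A : Matrix ι ι ℂ) (b c : ι → ℂ) (d : ℂ) (i : ι) (j : Unit) :
    bordered A b c d (Sum.inl i) (Sum.inr j) = b i := rfl

@[simp] lemma bordered_21 (A : Matrix ι ι ℂ) (b c : ι → ℂ) (d : ℂ) (i : Unit) (j : ι) :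
    bordered A b c d (Sum.inr i) (Sum.inl j) = c j := rfl

@[simp] lemma bordered_22 (A : Matrix ι ι ℂ) (b c : ι → ℂ) (d : ℂ) (i j : Unit) :
    bordered A b c d (Sum.inr i) (Sum.inr j) = d := rfl

lemma trace_bordered (A : Matrix ι ι ℂ) (b c : ι → ℂ) (d : ℂ) :
    (bordered A b c d).trace = A.trace + d := by
  rw [Matrix.trace, Fintype.sum_sum_type]
  simp [Matrix.trace]

/-- The embedding `M ↦ diag(M, -tr M)` of `n × n` matrices into `sl (n+1)`. -/
def emb : Matrix ι ι ℂ →ₗ[ℂ] sl (ι ⊕ Unit) ℂ where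
  toFun M := ⟨bordered M 0 0 (-M.trace), by
    change Matrix.trace _ = 0
    rw [trace_bordered, add_neg_cancel]⟩
  map_add' M N := by
    apply Subtype.ext
    change bordered _ _ _ _ = bordered _ _ _ _ + bordered _ _ _ _
    ext (i | i) (j | j) <;> simp [add_comm]
  map_smul' c M := by
    apply Subtype.ext
    change bordered _ _ _ _ = c • bordered _ _ _ _
    ext (i | i) (j | j) <;> simp

/-- The last column. -/
def colv : (ι → ℂ) →ₗ[ℂ] sl (ι ⊕ Unit) ℂ where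
  toFun v := ⟨bordered 0 v 0 0, by
    change Matrix.trace _ = 0
    rw [trace_bordered]
    simp⟩
  map_add' v w := by
    apply Subtype.ext
    change bordered _ _ _ _ = bordered _ _ _ _ + bordered _ _ _ _
    ext (i | i) (j | j) <;> simp
  map_smul' c v := by
    apply Subtype.ext
    change bordered _ _ _ _ = c • bordered _ _ _ _
    ext (i | i) (j | j) <;> simp

/-- The last row. -/
def rowv : (ι → ℂ) →ₗ[ℂ] sl (ι ⊕ Unit) ℂ where
  toFun v := ⟨bordered 0 0 v 0, by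
    change Matrix.trace _ = 0
    rw [trace_bordered]
    simp⟩
  map_add' v w := by
    apply Subtype.ext
    change bordered _ _ _ _ = bordered _ _ _ _ + bordered _ _ _ _
    ext (i | i) (j | j) <;> simp
  map_smul' c v := by
    apply Subtype.ext
    change bordered _ _ _ _ = c • bordered _ _ _ _
    ext (i | i) (j | j) <;> simp

lemma val_emb (M : Matrix ι ι ℂ) : (emb M).val = bordered M 0 0 (-M.trace) := rfl

lemma val_colv (v : ι → ℂ) : (colv v).val = bordered 0 v 0 0 := rfl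

lemma val_rowv (v : ι → ℂ) : (rowv v).val = bordered 0 0 v 0 := rfl

/-- The upper left block. -/
def blk : sl (ι ⊕ Unit) ℂ →ₗ[ℂ] Matrix ι ι ℂ where
  toFun w := w.val.toBlocks₁₁
  map_add' v w := rfl
  map_smul' c v := rfl

/-- The entries of the last column. -/
def colp : sl (ι ⊕ Unit) ℂ →ₗ[ℂ] (ι → ℂ) where
  toFun w := fun i => w.val (Sum.inl i) (Sum.inr ())
  map_add' v w := rfl
  map_smul' c v := rfl

/-- The entries of the last row. -/
def rowp : sl (ι ⊕ Unit) ℂ →ₗ[ℂ] (ι → ℂ) where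
  toFun w := fun i => w.val (Sum.inr ()) (Sum.inl i)
  map_add' v w := rfl
  map_smul' c v := rfl

lemma blk_apply (w : sl (ι ⊕ Unit) ℂ) (i j : ι) : blk w i j = w.val (Sum.inl i) (Sum.inl j) := rfl

lemma colp_apply (w : sl (ι ⊕ Unit) ℂ) (i : ι) : colp w i = w.val (Sum.inl i) (Sum.inr ()) := rfl

lemma rowp_apply (w : sl (ι ⊕ Unit) ℂ) (i : ι) : rowp w i = w.val (Sum.inr ()) (Sum.inl i) := rfl

@[simp] lemma colp_colv (v : ι → ℂ) : colp (colv v) = v := rfl

@[simp] lemma rowp_rowv (v : ι → ℂ) : rowp (rowv v) = v := rfl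

lemma eq_colv (w : sl (ι ⊕ Unit) ℂ) (h1 : blk w = 0) (h2 : rowp w = 0) : w = colv (colp w) := by
  apply Subtype.ext
  have ht : w.val (Sum.inr ()) (Sum.inr ()) = 0 := by
    have h0 : Matrix.trace w.val = 0 := w.2
    rw [Matrix.trace, Fintype.sum_sum_type] at h0
    have h3 : ∀ i, w.val (Sum.inl i) (Sum.inl i) = 0 := fun i => congrFun (congrFun h1 i) i
    simpa [h3] using h0
  ext (i | i) (j | j)
  · exact congrFun (congrFun h1 i) j
  · rfl
  · exact congrFun h2 j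
  · exact ht

lemma eq_rowv (w : sl (ι ⊕ Unit) ℂ) (h1 : blk w = 0) (h2 : colp w = 0) : w = rowv (rowp w) := by
  apply Subtype.ext
  have ht : w.val (Sum.inr ()) (Sum.inr ()) = 0 := by
    have h0 : Matrix.trace w.val = 0 := w.2
    rw [Matrix.trace, Fintype.sum_sum_type] at h0
    have h3 : ∀ i, w.val (Sum.inl i) (Sum.inl i) = 0 := fun i => congrFun (congrFun h1 i) i
    simpa [h3] using h0
  ext (i | i) (j | j)
  · exact congrFun (congrFun h1 i) j
  · exact congrFun h2 i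
  · rfl
  · exact ht

lemma blk_lie (M : Matrix ι ι ℂ) (w : sl (ι ⊕ Unit) ℂ) :
    blk ⁅emb M, w⁆ = M * blk w - blk w * M := by
  ext i j
  change (_ * _ - _ * _ : Matrix (ι ⊕ Unit) (ι ⊕ Unit) ℂ) (Sum.inl i) (Sum.inl j) = _
  rw [val_emb]
  simp [blk_apply, Matrix.mul_apply, Fintype.sum_sum_type]

lemma colp_lie (M : Matrix ι ι ℂ) (w : sl (ι ⊕ Unit) ℂ) :
    colp ⁅emb M, w⁆ = M *ᵥ colp w + M.trace • colp w := by
  ext i
  change (_ * _ - _ * _ : Matrix (ι ⊕ Unit) (ι ⊕ Unit) ℂ) (Sum.inl i) (Sum.inr ()) = _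
  rw [val_emb]
  simp [colp_apply, Matrix.mul_apply, Fintype.sum_sum_type, Matrix.mulVec, dotProduct]
  ring

lemma rowp_lie (M : Matrix ι ι ℂ) (w : sl (ι ⊕ Unit) ℂ) :
    rowp ⁅emb M, w⁆ = -(Mᵀ *ᵥ rowp w + M.trace • rowp w) := by
  ext i
  change (_ * _ - _ * _ : Matrix (ι ⊕ Unit) (ι ⊕ Unit) ℂ) (Sum.inr ()) (Sum.inl i) = _
  rw [val_emb]
  simp [rowp_apply, Matrix.mul_apply, Fintype.sum_sum_type, Matrix.mulVec, dotProduct, mul_comm]
  ring

lemma lie_colv (M : Matrix ι ι ℂ) (v : ι → ℂ) :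
    ⁅emb M, colv v⁆ = colv (M *ᵥ v + M.trace • v) := by
  rw [eq_colv ⁅emb M, colv v⁆]
  · rw [colp_lie, colp_colv]
  · rw [blk_lie]
    have : blk (colv v) = 0 := rfl
    rw [this]
    simp
  · rw [rowp_lie]
    have : rowp (colv v) = 0 := rfl
    rw [this]
    simp

lemma lie_rowv (M : Matrix ι ι ℂ) (v : ι → ℂ) :
    ⁅emb M, rowv v⁆ = rowv (-(Mᵀ *ᵥ v + M.trace • v)) := by
  rw [eq_rowv ⁅emb M, rowv v⁆]
  · rw [rowp_lie, rowp_rowv]
  · rw [blk_lie]
    have : blk (rowv v) = 0 := rfl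
    rw [this]
    simp
  · rw [colp_lie]
    have : colp (rowv v) = 0 := rfl
    rw [this]
    simp

/-- The element `diag(x₀ + c, -n c)` with `c = 1/(n+1)` (for `x₀` of trace zero). -/
noncomputable def bigX (x₀ : Matrix ι ι ℂ) : sl (ι ⊕ Unit) ℂ :=
  emb (x₀ + ((Fintype.card ι : ℂ) + 1)⁻¹ • (1 : Matrix ι ι ℂ))

lemma card_inv : ((Fintype.card ι : ℂ) + 1)⁻¹ * (Fintype.card ι : ℂ)
    + ((Fintype.card ι : ℂ) + 1)⁻¹ = 1 := by
  have h : ((Fintype.card ι : ℂ) + 1) ≠ 0 := Nat.cast_add_one_ne_zero _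
  field_simp

lemma colp_bigX {x₀ : Matrix ι ι ℂ} (h : x₀.trace = 0) (w : sl (ι ⊕ Unit) ℂ) :
    colp ⁅bigX x₀, w⁆ = x₀ *ᵥ colp w + colp w := by
  rw [bigX, colp_lie, Matrix.add_mulVec, Matrix.trace_add, h, Matrix.trace_smul, Matrix.trace_one,
    Matrix.smul_mulVec, Matrix.one_mulVec, smul_eq_mul, zero_add, add_assoc, ← add_smul,
    add_comm _ (_ * _), card_inv, one_smul]

lemma rowp_bigX {x₀ : Matrix ι ι ℂ} (h : x₀.trace = 0) (w : sl (ι ⊕ Unit) ℂ) :
    rowp ⁅bigX x₀, w⁆ = -(x₀ᵀ *ᵥ rowp w + rowp w) := by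
  rw [bigX, rowp_lie, Matrix.transpose_add, Matrix.transpose_smul, Matrix.transpose_one,
    Matrix.add_mulVec, Matrix.trace_add, h, Matrix.trace_smul, Matrix.trace_one,
    Matrix.smul_mulVec, Matrix.one_mulVec, smul_eq_mul, zero_add, add_assoc, ← add_smul,
    add_comm _ (_ * _), card_inv, one_smul]

lemma blk_bigX (x₀ : Matrix ι ι ℂ) (w : sl (ι ⊕ Unit) ℂ) :
    blk ⁅bigX x₀, w⁆ = x₀ * blk w - blk w * x₀ := by
  rw [bigX, blk_lie, add_mul, mul_add]
  simp

lemma lie_bigX_colv {x₀ : Matrix ι ι ℂ} (h : x₀.trace = 0) (v : ι → ℂ) :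
    ⁅bigX x₀, colv v⁆ = colv (x₀ *ᵥ v + v) := by
  rw [bigX, lie_colv, Matrix.add_mulVec, Matrix.trace_add, h, Matrix.trace_smul, Matrix.trace_one,
    Matrix.smul_mulVec, Matrix.one_mulVec, smul_eq_mul, zero_add, add_assoc, ← add_smul,
    add_comm _ (_ * _), card_inv, one_smul]

lemma lie_bigX_rowv {x₀ : Matrix ι ι ℂ} (h : x₀.trace = 0) (v : ι → ℂ) :
    ⁅bigX x₀, rowv v⁆ = rowv (-(x₀ᵀ *ᵥ v + v)) := by
  rw [bigX, lie_rowv, Matrix.transpose_add, Matrix.transpose_smul, Matrix.transpose_one,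
    Matrix.add_mulVec, Matrix.trace_add, h, Matrix.trace_smul, Matrix.trace_one,
    Matrix.smul_mulVec, Matrix.one_mulVec, smul_eq_mul, zero_add, add_assoc, ← add_smul,
    add_comm _ (_ * _), card_inv, one_smul]

lemma nilpotent_toLin (M : Matrix ι ι ℂ) (h : IsNilpotent M) :
    IsNilpotent (Matrix.toLin' M : Module.End ℂ (ι → ℂ)) := by
  obtain ⟨k, hk⟩ := h
  exact ⟨k, by rw [← Matrix.toLin'_pow, hk, map_zero]⟩

lemma nilpotent_comm (M : Matrix ι ι ℂ) (h : IsNilpotent M) :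
    IsNilpotent (LinearMap.mulLeft ℂ M - LinearMap.mulRight ℂ M :
      Module.End ℂ (Matrix ι ι ℂ)) := by
  have h1 : IsNilpotent (LinearMap.mulLeft ℂ M : Module.End ℂ (Matrix ι ι ℂ)) :=
    (LinearMap.isNilpotent_mulLeft_iff ℂ M).2 h
  have h2 : IsNilpotent (LinearMap.mulRight ℂ M : Module.End ℂ (Matrix ι ι ℂ)) :=
    (LinearMap.isNilpotent_mulRight_iff ℂ M).2 h
  exact (LinearMap.commute_mulLeft_right (R := ℂ) M M).isNilpotent_sub h1 h2

/-- Generalized eigenvectors of `s • ad x` for the eigenvalue `1`. -/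
lemma gen_eigen {x₀ : Matrix ι ι ℂ} (hx : IsNilpotent x₀) (s : ℂ) (K : ℕ)
    (w : sl (ι ⊕ Unit) ℂ)
    (hw : ((s • LieAlgebra.ad ℂ _ (bigX x₀) - 1 : Module.End ℂ (sl (ι ⊕ Unit) ℂ)) ^ K) w = 0) :
    blk w = 0 ∧ (s ≠ 1 → colp w = 0) ∧ (s ≠ -1 → rowp w = 0) := by
  have ht : x₀.trace = 0 := (Matrix.isNilpotent_trace_of_isNilpotent hx).eq_zero
  refine ⟨?_, fun hs => ?_, fun hs => ?_⟩
  · refine transfer blk _ ((-1 : ℂ) • (1 : Module.End ℂ (Matrix ι ι ℂ))
      + s • (LinearMap.mulLeft ℂ x₀ - LinearMap.mulRight ℂ x₀)) ?_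
      (isUnit_of_nilpotent _ _ (by norm_num) _ (nilpotent_comm x₀ hx)) K w hw
    intro u
    simp only [LinearMap.sub_apply, LinearMap.smul_apply, LieAlgebra.ad_apply, map_sub, map_smul,
      Module.End.one_apply, LinearMap.add_apply, blk_bigX, LinearMap.mulLeft_apply,
      LinearMap.mulRight_apply]
    module
  · refine transfer colp _ ((s - 1) • (1 : Module.End ℂ (ι → ℂ)) + s • Matrix.toLin' x₀) ?_
      (isUnit_of_nilpotent _ _ (sub_ne_zero.2 hs) _ (nilpotent_toLin x₀ hx)) K w hw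
    intro u
    simp only [LinearMap.sub_apply, LinearMap.smul_apply, LieAlgebra.ad_apply, map_sub, map_smul,
      Module.End.one_apply, LinearMap.add_apply, colp_bigX ht, Matrix.toLin'_apply]
    module
  · refine transfer rowp _ ((-(s + 1)) • (1 : Module.End ℂ (ι → ℂ))
      + (-s) • Matrix.toLin' x₀ᵀ) ?_
      (isUnit_of_nilpotent _ _ (neg_ne_zero.2 (fun h => hs (eq_neg_of_add_eq_zero_left h))) _
        (nilpotent_toLin x₀ᵀ ?_)) K w hw
    · intro u
      simp only [LinearMap.sub_apply, LinearMap.smul_apply, LieAlgebra.ad_apply, map_sub, map_smul,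
        Module.End.one_apply, LinearMap.add_apply, rowp_bigX ht, Matrix.toLin'_apply]
      module
    · obtain ⟨k, hk⟩ := hx
      exact ⟨k, by rw [← Matrix.transpose_pow, hk, Matrix.transpose_zero]⟩

end Weights

end Pool.Agent.Work.MP_3d4872_al
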